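import Pool.Agent.helper4.NF.SpecA
import Pool.Agent.helper20.ZD.K2B

/-!
# Project nf (MP_4467b5_nt), module KGD: the quadratic kernel (after `Pool/Agent/helper20/ZD/K2B.lean`)
-/

set_option autoImplicit false

open Complex MeasureTheory

namespace Pool.Agent.NF

open Pool.Agent.helper84.DM Pool.Agent.helper78.ED Pool.Agent.DH Pool.Agent.ZD

/-- `g(e^x) e^x`. -/
noncomputable def KGD_w (g : ℝ → ℝ) (x : ℝ) : ℝ := g (Real.exp x) * Real.exp x

theorem KGD_supp (g : ℝ → ℝ) (hg : SR g) (x : ℝ) (h : KGD_w g x ≠ 0) :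
    1 / 2 ≤ Real.exp x ∧ Real.exp x ≤ 64 := by
  have h0 : g (Real.exp x) ≠ 0 := left_ne_zero_of_mul h
  constructor
  · by_contra hcon
    apply h0
    have : ((g (Real.exp x) : ℝ) : ℂ) = 0 := hg.2 (Real.exp x) (Or.inl (not_le.1 hcon))
    exact_mod_cast this
  · by_contra hcon
    apply h0
    have : ((g (Real.exp x) : ℝ) : ℂ) = 0 := hg.2 (Real.exp x) (Or.inr (not_le.1 hcon))
    exact_mod_cast this

theorem KGD_cpt (g : ℝ → ℝ) (hg : SR g) (y : ℝ) (hy : y ∉ Set.Icc (-5 : ℝ) 5) : KGD_w g y = 0 := by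
  by_contra hcon
  obtain ⟨h7, h8⟩ := KGD_supp g hg _ hcon
  have h9 := K2B_e5
  apply hy
  constructor
  · by_contra h
    have h10 : Real.exp y < Real.exp (-5) := Real.exp_lt_exp.2 (not_le.1 h)
    have h11 : Real.exp 5 * Real.exp (-5) = 1 := by rw [← Real.exp_add]; simp
    have h12 : 0 < Real.exp (-5 : ℝ) := Real.exp_pos _
    nlinarith
  · by_contra h
    have h10 : Real.exp 5 < Real.exp y := Real.exp_lt_exp.2 (not_le.1 h)
    linarith

theorem KGD_pair (g : ℝ → ℝ) (hg : SR g) (y a : ℝ) (ha : 5 < |a|) :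
    KGD_w g (y + a) * KGD_w g y = 0 := by
  by_contra hcon
  have h3 : KGD_w g (y + a) ≠ 0 := left_ne_zero_of_mul hcon
  have h4 : KGD_w g y ≠ 0 := right_ne_zero_of_mul hcon
  obtain ⟨h5, h6⟩ := KGD_supp g hg _ h3
  obtain ⟨h7, h8⟩ := KGD_supp g hg _ h4
  rw [Real.exp_add] at h5 h6
  have h9 := K2B_e5
  have hy : 0 < Real.exp y := Real.exp_pos y
  rcases lt_abs.1 ha with h | h
  · have h10 : Real.exp 5 < Real.exp a := Real.exp_lt_exp.2 h
    nlinarith
  · have h10 : Real.exp 5 < Real.exp (-a) := Real.exp_lt_exp.2 h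
    have h11 : Real.exp a * Real.exp (-a) = 1 := by rw [← Real.exp_add]; simp
    have h12 : 0 < Real.exp a := Real.exp_pos a
    have h13 : Real.exp a * 128 < 1 := by nlinarith
    nlinarith

/-- one term -/
theorem KGD_term (h1 : CHG_stmt) (h3 : RD_stmt) (h4 : SBO_stmt) (g : ℝ → ℝ)
    (hg : SR g) : ∃ C : ℝ, 0 ≤ C ∧ ∀ a ξ : ℝ, |a| ≤ 5 →
      ‖∫ y : ℝ, ((KGD_w g (y + a) * KGD_w g y : ℝ) : ℂ) *
        ee (-(ξ * Real.exp y))‖ ≤ C * kap ξ := by
  have hg0 : ∀ y : ℝ, y ≤ 0 → g y = 0 := by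
    intro y hy
    have : ((g y : ℝ) : ℂ) = 0 := hg.2 y (Or.inl (by linarith))
    exact_mod_cast this
  obtain ⟨hd, hx, -, -, B0, hB0, hB0'⟩ := h4 _ hg
  obtain ⟨hdd, -, -, -, B1, hB1, hB1'⟩ := h4 _ hd
  obtain ⟨-, -, -, -, B2, hB2, hB2'⟩ := h4 _ hdd
  have hbd : ∃ B : ℝ, ∀ x, ‖(fun y => ((g y : ℝ) : ℂ)) x‖ ≤ B ∧
      ‖deriv (fun y => ((g y : ℝ) : ℂ)) x‖ ≤ B ∧
      ‖deriv (deriv (fun y => ((g y : ℝ) : ℂ))) x‖ ≤ B :=
    ⟨max B0 (max B1 B2), fun x => ⟨(hB0' x).trans (le_max_left _ _),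
      (hB1' x).trans ((le_max_left _ _).trans (le_max_right _ _)),
      (hB2' x).trans ((le_max_right _ _).trans (le_max_right _ _))⟩⟩
  obtain ⟨C, hC, hC'⟩ := h3 (fun y => ((g y : ℝ) : ℂ)) (fun _ => 1)
    (fun x => (x : ℂ) * ((g x : ℝ) : ℂ)) (contDiff_infty.1 hg.1 2)
    contDiff_const hx hbd ⟨1, fun x => by simp⟩
  refine ⟨Real.exp 5 * C, mul_nonneg (by positivity) hC, ?_⟩
  intro a ξ ha
  have hkap : 0 ≤ kap ξ := by
    unfold kap
    positivity
  have hα : |Real.exp a| ≤ Real.exp 5 := by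
    rw [abs_of_pos (Real.exp_pos a)]
    exact Real.exp_le_exp.2 (le_of_abs_le ha)
  have h5 := hC' (Real.exp a) 0 ξ hα (by rw [abs_zero]; exact (Real.exp_pos 5).le)
  have h6 : ∫ y : ℝ, ((KGD_w g (y + a) * KGD_w g y : ℝ) : ℂ) *
        ee (-(ξ * Real.exp y)) =
      ((Real.exp a : ℝ) : ℂ) * ∫ s : ℝ, (fun y => ((g y : ℝ) : ℂ)) (Real.exp a * s) *
        (fun _ => (1 : ℂ)) (0 * s) *
        (fun x : ℝ => (x : ℂ) * ((g x : ℝ) : ℂ)) s * ee (-(ξ * s)) := by
    have h7 := h1 g hg0 (fun s => ((g (Real.exp a * s) : ℝ) : ℂ) * ((Real.exp a : ℝ) : ℂ) * (s : ℂ) *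
      ee (-(ξ * s)))
    rw [← integral_const_mul]
    have h8 : ∀ y : ℝ, ((KGD_w g (y + a) * KGD_w g y : ℝ) : ℂ) *
          ee (-(ξ * Real.exp y)) =
        ((g (Real.exp y) * Real.exp y : ℝ) : ℂ) * (((g (Real.exp a * Real.exp y) : ℝ) : ℂ) *
          ((Real.exp a : ℝ) : ℂ) * ((Real.exp y : ℝ) : ℂ) * ee (-(ξ * Real.exp y))) := by
      intro y
      unfold KGD_w
      rw [Real.exp_add, mul_comm (Real.exp y) (Real.exp a)]
      push_cast
      ring
    simp only [h8]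
    rw [h7]
    congr 1
    funext s
    ring
  rw [h6, norm_mul]
  have h10 : ‖((Real.exp a : ℝ) : ℂ)‖ = |Real.exp a| := by
    rw [Complex.norm_real, Real.norm_eq_abs]
  rw [h10, mul_assoc]
  exact mul_le_mul hα h5 (norm_nonneg _) (Real.exp_pos 5).le

theorem KGD (h1 : CHG_stmt) (h3 : RD_stmt) (h4 : SBO_stmt) : KGD_stmt := by
  intro g hg
  obtain ⟨C, hC, hC'⟩ := KGD_term h1 h3 h4 g hg
  refine ⟨C + 1, by linarith, ?_⟩
  intro X M a
  have hkap : ∀ x : ℝ, 0 ≤ kap x := by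
    intro x
    unfold kap
    positivity
  have hGW : ∀ c : ℝ, GW g X M c = ((KGD_w g c : ℝ) : ℂ) * EE X M c := fun c => rfl
  have hbig : 5 < |a| → ∫ y : ℝ, GW g X M (y + a) * (starRingEnd ℂ) (GW g X M y) = 0 := by
    intro ha
    have h6 : ∀ y : ℝ, GW g X M (y + a) * (starRingEnd ℂ) (GW g X M y) = 0 := by
      intro y
      rw [hGW, hGW]
      rcases mul_eq_zero.1 (KGD_pair g hg y a ha) with h8 | h8
      · rw [h8]
        simp
      · rw [h8]
        simp
    simp only [h6, integral_zero]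
  refine ⟨hbig, ?_⟩
  have hS : 0 ≤ ∑ m ∈ MM M, ∑ m' ∈ MM M, kap (X * ((m : ℝ) * Real.exp a - m')) :=
    Finset.sum_nonneg (fun m _ => Finset.sum_nonneg (fun m' _ => hkap _))
  by_cases ha : 5 < |a|
  · rw [hbig ha, norm_zero]
    exact mul_nonneg (mul_nonneg (by linarith) (sq_nonneg X)) hS
  · rw [not_lt] at ha
    have hgc : Continuous g := by
      have h := Complex.continuous_re.comp hg.1.continuous
      exact h
    have hwc : Continuous (KGD_w g) := by
      unfold KGD_w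
      exact (hgc.comp Real.continuous_exp).mul Real.continuous_exp
    have hint : ∀ ξ : ℝ, Integrable
        (fun y : ℝ => ((KGD_w g (y + a) * KGD_w g y : ℝ) : ℂ) * ee (-(ξ * Real.exp y))) := by
      intro ξ
      apply Continuous.integrable_of_hasCompactSupport
      · have h7 : Continuous (fun y : ℝ => KGD_w g (y + a) * KGD_w g y) :=
          (hwc.comp (continuous_id.add continuous_const)).mul hwc
        have h8 : Continuous (fun y : ℝ => ee (-(ξ * Real.exp y))) :=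
          K2B_ee_cont.comp (continuous_const.mul Real.continuous_exp).neg
        exact (Complex.continuous_ofReal.comp h7).mul h8
      · apply HasCompactSupport.intro (isCompact_Icc : IsCompact (Set.Icc (-5 : ℝ) 5))
        intro y hy
        rw [KGD_cpt g hg y hy]
        simp
    have hexp : ∀ y : ℝ, GW g X M (y + a) * (starRingEnd ℂ) (GW g X M y) =
        ∑ m ∈ MM M, ∑ m' ∈ MM M, ((X : ℂ) ^ 2 * (((KGD_w g (y + a) * KGD_w g y : ℝ) : ℂ) *
          ee (-((X * ((m : ℝ) * Real.exp a - m')) * Real.exp y)))) := by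
      intro y
      rw [hGW, hGW]
      unfold EE
      rw [map_mul, map_mul, Complex.conj_ofReal, Complex.conj_ofReal, map_sum]
      have h9 : ∀ S T : ℂ, ((KGD_w g (y + a) : ℝ) : ℂ) * ((X : ℂ) * S) *
          (((KGD_w g y : ℝ) : ℂ) * ((X : ℂ) * T)) =
          ((X : ℂ) ^ 2 * ((KGD_w g (y + a) * KGD_w g y : ℝ) : ℂ)) * (S * T) := by
        intro S T
        push_cast
        ring
      rw [h9, Finset.sum_mul_sum, Finset.mul_sum]
      apply Finset.sum_congr rfl
      intro m _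
      rw [Finset.mul_sum]
      apply Finset.sum_congr rfl
      intro m' _
      rw [K2B_ee_conj, K2B_ee_add, mul_assoc]
      congr 3
      rw [Real.exp_add]
      ring
    simp only [hexp]
    rw [integral_finsetSum _ (fun m _ => integrable_finsetSum _ (fun m' _ => (hint _).const_mul _))]
    have h10 : ∀ m ∈ MM M, ∫ y : ℝ, ∑ m' ∈ MM M, ((X : ℂ) ^ 2 *
          (((KGD_w g (y + a) * KGD_w g y : ℝ) : ℂ) *
          ee (-((X * ((m : ℝ) * Real.exp a - m')) * Real.exp y)))) =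
        ∑ m' ∈ MM M, (X : ℂ) ^ 2 * ∫ y : ℝ, (((KGD_w g (y + a) * KGD_w g y : ℝ) : ℂ) *
          ee (-((X * ((m : ℝ) * Real.exp a - m')) * Real.exp y))) := by
      intro m _
      rw [integral_finsetSum _ (fun m' _ => (hint _).const_mul _)]
      apply Finset.sum_congr rfl
      intro m' _
      rw [integral_const_mul]
    rw [Finset.sum_congr rfl h10, Finset.mul_sum]
    refine (norm_sum_le _ _).trans (Finset.sum_le_sum ?_)
    intro m _
    rw [Finset.mul_sum]
    refine (norm_sum_le _ _).trans (Finset.sum_le_sum ?_)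
    intro m' _
    rw [norm_mul, norm_pow, Complex.norm_real, Real.norm_eq_abs, sq_abs]
    have h11 := hC' a (X * ((m : ℝ) * Real.exp a - m')) ha
    have h12 := hkap (X * ((m : ℝ) * Real.exp a - m'))
    have h13 : (C + 1) * X ^ 2 * kap (X * ((m : ℝ) * Real.exp a - m')) =
        X ^ 2 * (C * kap (X * ((m : ℝ) * Real.exp a - m'))) +
          X ^ 2 * kap (X * ((m : ℝ) * Real.exp a - m')) := by ring
    rw [h13]
    have h14 := mul_le_mul_of_nonneg_left h11 (sq_nonneg X)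
    have h15 := mul_nonneg (sq_nonneg X) h12
    linarith

end Pool.Agent.NF
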