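import Pool.Agent.helper4.NF.SpecB

/-!
# Project nf (MP_4467b5_nt), module MQI
-/

set_option autoImplicit false

open Complex MeasureTheory

namespace Pool.Agent.NF

open Pool.Agent.helper84.DM Pool.Agent.helper78.ED Pool.Agent.DH Pool.Agent.ZD

theorem MQI_P3 (hEXA : EXA_stmt) (N : ℕ) (b : ℕ → ℂ) (hb : ∀ n ∈ Finset.Ioc N (4 * N), ‖b n‖ ≤ 1)
    (t : ℝ) : ‖PP N b t‖ ≤ 3 * N := by
  obtain ⟨e1, -, -, -, -, e6, -⟩ := hEXA
  have h0 : (0 : ℕ) ∉ Finset.Ioc N (4 * N) := by simp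
  unfold PP
  rw [e6 _ b t h0]
  refine (norm_sum_le _ _).trans ?_
  have h1 : ∀ n ∈ Finset.Ioc N (4 * N), ‖b n * ex (-(t * Real.log n))‖ ≤ 1 := by
    intro n hn
    rw [norm_mul, e1, mul_one]
    exact hb n hn
  refine (Finset.sum_le_sum h1).trans ?_
  rw [Finset.sum_const, Nat.card_Ioc, nsmul_eq_mul, mul_one]
  have : 4 * N - N = 3 * N := by omega
  rw [this]
  push_cast
  exact le_rfl

theorem MQI_b1 (N : ℕ) (b : ℕ → ℂ) (hN : 1 ≤ N) (hb : ∀ n ∈ Finset.Ioc N (4 * N), ‖b n‖ ≤ 1) :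
    ∀ n ∈ Finset.Ioc N (4 * N),
      ‖(fun n => b n * ((Real.log n - Real.log N : ℝ) : ℂ)) n‖ ≤ 2 := by
  intro n hn
  have h1 := hb n hn
  rw [Finset.mem_Ioc] at hn
  have hN0 : (0 : ℝ) < N := by exact_mod_cast hN
  have hn0 : (0 : ℝ) < n := by
    have : (N : ℝ) < n := by exact_mod_cast hn.1
    linarith
  have h2 : 0 ≤ Real.log n - Real.log N := by
    have : Real.log N ≤ Real.log n := Real.log_le_log hN0 (by exact_mod_cast hn.1.le)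
    linarith
  have h3 : Real.log n - Real.log N ≤ 2 := by
    have h4 : Real.log n ≤ Real.log (4 * N) := by
      apply Real.log_le_log hn0
      exact_mod_cast hn.2
    rw [Real.log_mul (by norm_num) hN0.ne'] at h4
    have h5 : Real.log 4 = 2 * Real.log 2 := by
      rw [show (4 : ℝ) = 2 ^ 2 by norm_num, Real.log_pow]
      norm_num
    have h6 := Real.log_two_lt_d9
    linarith
  show ‖b n * ((Real.log n - Real.log N : ℝ) : ℂ)‖ ≤ 2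
  rw [norm_mul, Complex.norm_real, Real.norm_eq_abs, abs_of_nonneg h2]
  have h7 := norm_nonneg (b n)
  nlinarith

theorem MQI_xf (hEXA : EXA_stmt) (W : Finset ℝ) (P : ℝ → ℂ) (NP X₀ a θ : ℝ) (hNP : 0 < NP)
    (hX₀ : 0 < X₀) :
    xf W (fun t => (P t * ex (t * Real.log (NP * X₀))) * ex (-(t * Real.log X₀)))
      (a - Real.log NP + θ) = ∑ t ∈ W, P t * ex (t * (a + θ)) := by
  obtain ⟨-, e2, -⟩ := hEXA
  unfold xf
  refine Finset.sum_congr rfl fun t _ => ?_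
  show P t * ex (t * Real.log (NP * X₀)) * ex (-(t * Real.log X₀)) * ex (t * (a - Real.log NP + θ))
    = _
  rw [mul_assoc (P t), mul_assoc (P t), ← e2, ← e2]
  congr 2
  rw [Real.log_mul hNP.ne' hX₀.ne']
  ring

/-- The final inequality of real numbers. -/
theorem MQI_real (VQ S J C' K0 T NP X₀ NQ R U SP Y r : ℝ) (a b ε δ : ℝ) (hT : 1 ≤ T)
    (hδ : 0 < δ) (hε : 0 < ε) (hNP : 1 ≤ NP) (hX₀ : 1 ≤ X₀) (hNQ : 1 ≤ NQ) (hNX : NQ ≤ X₀)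
    (hR : 0 ≤ R) (hRT : R ≤ 2 * T) (hC' : 0 ≤ C') (hK0 : 0 ≤ K0) (hr : 0 ≤ r)
    (hSP0 : 0 ≤ SP)
    (hSP : SP ≤ R * U ^ 2) (hVQ0 : 0 ≤ VQ) (hVQ : VQ ≤ 3 * NQ)
    (ha : a = T ^ (ε / 2 + 3 * δ)) (hb : b = T ^ (ε / 2 + δ))
    (hY : Y = K0 * b * R * (NP * T + r + U ^ 2 * NP * (8 * (T ^ (1 + δ) / (NP * X₀)) * NQ)))
    (hJ : J ≤ C' * a * (NP * X₀ * T * NQ) * (X₀ * SP + Y / NP))
    (hQS : VQ ^ 2 * S ≤ 2 * (10 ^ 5 * J) + VQ ^ 2 * (R * SP)) :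
    VQ ^ 2 * S ≤ (2 * 10 ^ 5 * C' * (1 + 8 * K0) + 18) * T ^ (ε + 6 * δ) * R * (X₀ * T * NQ) *
      (U ^ 2 * (NP * X₀) + NP * T + r + U ^ 2 * NQ * T / X₀) := by
  have hT0 : 0 < T := by linarith
  have hTδ : T ^ (1 + δ) = T * T ^ δ := by
    rw [Real.rpow_add hT0, Real.rpow_one]
  have ha1 : 1 ≤ a := by rw [ha]; exact Real.one_le_rpow hT (by positivity)
  have hb1 : 1 ≤ b := by rw [hb]; exact Real.one_le_rpow hT (by positivity)
  have hd1 : 1 ≤ T ^ δ := Real.one_le_rpow hT hδ.le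
  have hmain : a * (b * T ^ δ) ≤ T ^ (ε + 6 * δ) := by
    rw [ha, hb, ← Real.rpow_add hT0, ← Real.rpow_add hT0]
    exact Real.rpow_le_rpow_of_exponent_le hT (by linarith)
  have ha2 : a ≤ a * (b * T ^ δ) := by
    have : 1 ≤ b * T ^ δ := by nlinarith
    nlinarith
  have hNP0 : 0 < NP := by linarith
  have hX0 : 0 < X₀ := by linarith
  have hNQ0 : 0 < NQ := by linarith
  set P6 := T ^ (ε + 6 * δ) with hP6
  have hP61 : 1 ≤ P6 := Real.one_le_rpow hT (by positivity)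
  set B := U ^ 2 * (NP * X₀) + NP * T + r + U ^ 2 * NQ * T / X₀ with hB
  have hU2 : 0 ≤ U ^ 2 := sq_nonneg U
  have hl : 0 ≤ U ^ 2 * NQ * T / X₀ := by positivity
  have hB0 : 0 ≤ B := by rw [hB]; positivity
  -- Y / NP
  have hY1 : NP * X₀ * T * NQ * (Y / NP) ≤ X₀ * T * NQ * (8 * K0 * (b * T ^ δ) * R * B) := by
    have e1 : NP * X₀ * T * NQ * (Y / NP) = X₀ * T * NQ * Y := by
      field_simp
    rw [e1]
    apply mul_le_mul_of_nonneg_left _ (by positivity)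
    rw [hY, hTδ]
    have e2 : U ^ 2 * NP * (8 * (T * T ^ δ / (NP * X₀)) * NQ) = 8 * T ^ δ * (U ^ 2 * NQ * T / X₀) := by
      field_simp
    rw [e2]
    have e3 : NP * T + r + 8 * T ^ δ * (U ^ 2 * NQ * T / X₀) ≤ 8 * T ^ δ * B := by
      rw [hB]
      have h1 : 0 ≤ NP * T := by positivity
      have h2 : 0 ≤ U ^ 2 * (NP * X₀) := by positivity
      nlinarith
    have e4 : 0 ≤ K0 * b * R := by positivity
    calc K0 * b * R * (NP * T + r + 8 * T ^ δ * (U ^ 2 * NQ * T / X₀))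
        ≤ K0 * b * R * (8 * T ^ δ * B) := mul_le_mul_of_nonneg_left e3 e4
      _ = 8 * K0 * (b * T ^ δ) * R * B := by ring
  have hX1 : NP * X₀ * T * NQ * (X₀ * SP) ≤ X₀ * T * NQ * (R * B) := by
    have e1 : NP * X₀ * T * NQ * (X₀ * SP) = X₀ * T * NQ * (NP * X₀ * SP) := by ring
    rw [e1]
    apply mul_le_mul_of_nonneg_left _ (by positivity)
    have e2 : NP * X₀ * SP ≤ NP * X₀ * (R * U ^ 2) := mul_le_mul_of_nonneg_left hSP (by positivity)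
    have e3 : U ^ 2 * (NP * X₀) ≤ B := by
      rw [hB]
      have h1 : 0 ≤ NP * T := by positivity
      linarith
    have e4 := mul_le_mul_of_nonneg_left e3 hR
    calc NP * X₀ * SP ≤ NP * X₀ * (R * U ^ 2) := e2
      _ = R * (U ^ 2 * (NP * X₀)) := by ring
      _ ≤ R * B := e4
  set G := X₀ * T * NQ * (R * B) with hG
  have hG0 : 0 ≤ G := by rw [hG]; positivity
  have hJ1 : J ≤ C' * (1 + 8 * K0) * P6 * G := by
    have e1 : C' * a * (NP * X₀ * T * NQ) * (X₀ * SP + Y / NP)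
        = C' * a * (NP * X₀ * T * NQ * (X₀ * SP) + NP * X₀ * T * NQ * (Y / NP)) := by ring
    rw [e1] at hJ
    have e2 : NP * X₀ * T * NQ * (X₀ * SP) + NP * X₀ * T * NQ * (Y / NP)
        ≤ (1 + 8 * K0 * (b * T ^ δ)) * G := by
      have : X₀ * T * NQ * (8 * K0 * (b * T ^ δ) * R * B) = 8 * K0 * (b * T ^ δ) * G := by
        rw [hG]; ring
      rw [this] at hY1
      linarith
    have e3 : 0 ≤ C' * a := by positivity
    have e4 := hJ.trans (mul_le_mul_of_nonneg_left e2 e3)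
    refine e4.trans ?_
    have e5 : a * (1 + 8 * K0 * (b * T ^ δ)) ≤ (1 + 8 * K0) * P6 := by
      have h1 : a ≤ P6 := ha2.trans hmain
      have h2 : 8 * K0 * (a * (b * T ^ δ)) ≤ 8 * K0 * P6 :=
        mul_le_mul_of_nonneg_left hmain (by positivity)
      nlinarith
    calc C' * a * ((1 + 8 * K0 * (b * T ^ δ)) * G) = C' * G * (a * (1 + 8 * K0 * (b * T ^ δ))) := by ring
      _ ≤ C' * G * ((1 + 8 * K0) * P6) := mul_le_mul_of_nonneg_left e5 (by positivity)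
      _ = C' * (1 + 8 * K0) * P6 * G := by ring
  have hL : VQ ^ 2 * (R * SP) ≤ 18 * P6 * G := by
    have e1 : VQ ^ 2 ≤ (3 * NQ) ^ 2 := pow_le_pow_left₀ hVQ0 hVQ 2
    have e2 : R * SP ≤ R * (R * U ^ 2) := mul_le_mul_of_nonneg_left hSP hR
    have e3 : VQ ^ 2 * (R * SP) ≤ (3 * NQ) ^ 2 * (R * (R * U ^ 2)) :=
      mul_le_mul e1 e2 (by positivity) (by positivity)
    have e4 : (3 * NQ) ^ 2 * (R * (R * U ^ 2)) ≤ 18 * G := by
      have f1 : U ^ 2 ≤ B := by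
        rw [hB]
        have h1 : 0 ≤ NP * T := by positivity
        have h2 : 1 ≤ NP * X₀ := by nlinarith
        nlinarith
      have f2 : R * (R * U ^ 2) ≤ R * (2 * T * B) := by
        apply mul_le_mul_of_nonneg_left _ hR
        exact mul_le_mul hRT f1 hU2 (by positivity)
      calc (3 * NQ) ^ 2 * (R * (R * U ^ 2)) ≤ (3 * NQ) ^ 2 * (R * (2 * T * B)) :=
            mul_le_mul_of_nonneg_left f2 (by positivity)
        _ = 18 * (NQ * (T * NQ * (R * B))) := by ring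
        _ ≤ 18 * (X₀ * (T * NQ * (R * B))) := by
            apply mul_le_mul_of_nonneg_left _ (by norm_num)
            exact mul_le_mul_of_nonneg_right hNX (by positivity)
        _ = 18 * G := by rw [hG]; ring
    have e5 : 18 * G ≤ 18 * P6 * G := by nlinarith
    linarith
  calc VQ ^ 2 * S ≤ 2 * (10 ^ 5 * J) + VQ ^ 2 * (R * SP) := hQS
    _ ≤ 2 * (10 ^ 5 * (C' * (1 + 8 * K0) * P6 * G)) + 18 * P6 * G := by linarith
    _ = (2 * 10 ^ 5 * C' * (1 + 8 * K0) + 18) * P6 * R * (X₀ * T * NQ) * B := by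
        rw [hG]; ring

theorem MQI (hTRB : TRB_stmt) (hGLS : GLS_stmt) (hJBD : JBD_stmt) (hYC : YC_stmt) (hYB : YB_stmt)
    (hYM : YM_stmt) (hEXA : EXA_stmt) (hEXB : EXB_stmt) (hCRD : CRD_stmt) (hBPH : BPH_stmt) :
    MQI_stmt := by
  intro ε δ hε hδ hδ1
  obtain ⟨sr1, sr2, -⟩ := id hEXB
  obtain ⟨C1, T1, hC1, h1⟩ := hJBD Phi sr1 (ε / 2) δ (by positivity) hδ hδ1
  obtain ⟨C2, T2, hC2, h2⟩ := hJBD PhL sr2 (ε / 2) δ (by positivity) hδ hδ1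
  obtain ⟨C3, T3, hC3, h3⟩ := hYB (ε / 2) δ (by positivity) hδ hδ1
  obtain ⟨C4, hC4, h4⟩ := hYC
  obtain ⟨T5, h5⟩ := hTRB δ hδ hδ1
  refine ⟨2 * 10 ^ 5 * (2 * C1 + C2) * (1 + 8 * (C3 + C4)) + 18,
    max (max (max T1 T2) (max T3 T5)) (max 100 (2 ^ (1 / δ))), by positivity, ?_⟩
  intro T hT W hW NP NE NQ L bP bQ UP VQ hNP hNE hNQ hL hX0 hNQX hXT hbP hbQ hUP hVQ hW2
  have hT1 : T1 ≤ T := le_trans (le_trans (le_max_left _ _) (le_trans (le_max_left _ _)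
    (le_max_left _ _))) hT
  have hT2 : T2 ≤ T := le_trans (le_trans (le_max_right _ _) (le_trans (le_max_left _ _)
    (le_max_left _ _))) hT
  have hT3 : T3 ≤ T := le_trans (le_trans (le_max_left _ _) (le_trans (le_max_right _ _)
    (le_max_left _ _))) hT
  have hT5 : T5 ≤ T := le_trans (le_trans (le_max_right _ _) (le_trans (le_max_right _ _)
    (le_max_left _ _))) hT
  have hT6 : 100 ≤ T := le_trans (le_trans (le_max_left _ _) (le_max_right _ _)) hT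
  have hT7 : (2 : ℝ) ^ (1 / δ) ≤ T := le_trans (le_trans (le_max_right _ _) (le_max_right _ _)) hT
  have hT0 : 0 < T := by linarith
  have hTone : 1 ≤ T := by linarith
  have hTd2 : 2 ≤ T ^ δ := by
    have := Real.rpow_le_rpow (by positivity) hT7 hδ.le
    rwa [← Real.rpow_mul (by norm_num), one_div_mul_cancel hδ.ne', Real.rpow_one] at this
  have hTδ : T ^ (1 + δ) = T * T ^ δ := by rw [Real.rpow_add hT0, Real.rpow_one]
  have hT14 : 2 ≤ T ^ (1 / 4 : ℝ) := by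
    have h := Real.rpow_le_rpow (by norm_num) (show (16 : ℝ) ≤ T by linarith)
      (show (0 : ℝ) ≤ 1 / 4 by norm_num)
    have h' : (16 : ℝ) ^ (1 / 4 : ℝ) = 2 := by
      rw [show (16 : ℝ) = 2 ^ (4 : ℝ) by norm_num, ← Real.rpow_mul (by norm_num)]
      norm_num
    rwa [h'] at h
  have hW0 : Sep 0 T W := by
    refine ⟨hW.1, fun t ht t' ht' hne => ?_⟩
    rw [Real.rpow_zero]
    have := hW.2 t ht t' ht' hne
    linarith
  have hRc : (W.card : ℝ) ≤ T + 1 := hCRD T W hTone hW.1 (fun t ht t' ht' hne => by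
    have := hW.2 t ht t' ht' hne
    linarith)
  obtain ⟨X₀, hX₀⟩ : ∃ X₀ : ℝ, X₀ = (NE : ℝ) * L := ⟨_, rfl⟩
  have hXeq : (NP : ℝ) * NE * L = NP * X₀ := by rw [hX₀]; ring
  rw [← hX₀] at hX0
  rw [hXeq] at hXT
  have hNQX' : (NQ : ℝ) ≤ X₀ := by rw [hX₀]; exact_mod_cast hNQX
  rw [← hX₀, hXeq]
  have hX2 : 2 ≤ X₀ := hT14.trans hX0
  have hX₀0 : 0 < X₀ := by linarith
  have hNP1 : (1 : ℝ) ≤ NP := by exact_mod_cast hNP
  have hNQ1 : (1 : ℝ) ≤ NQ := by exact_mod_cast hNQ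
  have hNP0 : (0 : ℝ) < NP := by linarith
  have hX1 : X₀ ≤ NP * X₀ := by nlinarith
  have hXT2 : (NP : ℝ) * X₀ ≤ T ^ (1 + δ) := by rw [hTδ]; nlinarith
  have hNPT : (NP : ℝ) ≤ T := by nlinarith
  obtain ⟨M, hM⟩ : ∃ M : ℕ, M = ⌊T ^ (1 + δ) / (NP * X₀)⌋₊ := ⟨_, rfl⟩
  have hM1 : T ^ (1 + δ) / (NP * X₀) ≤ (M : ℝ) + 1 := by
    rw [hM]
    exact (Nat.lt_floor_add_one _).le
  obtain ⟨f, hf⟩ : ∃ f : ℝ → ℂ, f = fun t => PP NP bP t * ex (t * Real.log (NP * X₀)) := ⟨_, rfl⟩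
  obtain ⟨e1, e2, -⟩ := id hEXA
  have hfn : ∀ t, ‖f t‖ = ‖PP NP bP t‖ := by
    intro t
    rw [hf]
    show ‖PP NP bP t * ex _‖ = _
    rw [norm_mul, e1, mul_one]
  have hSP : ∑ t ∈ W, ‖PP NP bP t‖ ^ 2 ≤ (W.card : ℝ) * UP ^ 2 := by
    have : ∀ t ∈ W, ‖PP NP bP t‖ ^ 2 ≤ UP ^ 2 := fun t ht =>
      pow_le_pow_left₀ (norm_nonneg _) (hW2 t ht).1 2
    refine (Finset.sum_le_sum this).trans ?_
    rw [Finset.sum_const, nsmul_eq_mul]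
  have hSP0 : 0 ≤ ∑ t ∈ W, ‖PP NP bP t‖ ^ 2 := Finset.sum_nonneg fun t _ => sq_nonneg _
  -- the bound at rational points
  obtain ⟨r, hr⟩ : ∃ r : ℝ, r = ((NP : ℝ) ^ 3 * UP ^ 2 * T) ^ (1 / 2 : ℝ) := ⟨_, rfl⟩
  have hr0 : 0 ≤ r := by rw [hr]; positivity
  obtain ⟨b, hb⟩ : ∃ b : ℝ, b = T ^ (ε / 2 + δ) := ⟨_, rfl⟩
  have hb1 : 1 ≤ b := by rw [hb]; exact Real.one_le_rpow hTone (by positivity)
  obtain ⟨Q, hQ⟩ : ∃ Q : ℝ, Q = 8 * (T ^ (1 + δ) / (NP * X₀)) * NQ := ⟨_, rfl⟩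
  obtain ⟨Y, hY⟩ : ∃ Y : ℝ, Y = (C3 + C4) * b * W.card * (NP * T + r + UP ^ 2 * NP * Q) := ⟨_, rfl⟩
  have hQ0 : 0 ≤ Q := by rw [hQ]; positivity
  have hY0 : 0 ≤ Y := by rw [hY]; positivity
  have hQT : Q ≤ T ^ 2 := by
    have h1 : T ^ (1 + δ) / (NP * X₀) * NQ ≤ T ^ (1 + δ) := by
      rw [div_mul_eq_mul_div, div_le_iff₀ (by positivity)]
      apply mul_le_mul_of_nonneg_left _ (by positivity)
      nlinarith
    have h2 : T ^ (1 + δ) ≤ T ^ (11 / 10 : ℝ) :=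
      Real.rpow_le_rpow_of_exponent_le hTone (by linarith)
    have h3 : (8 : ℝ) ≤ T ^ (9 / 10 : ℝ) := by
      have h4 : T ^ (1 / 2 : ℝ) ≤ T ^ (9 / 10 : ℝ) :=
        Real.rpow_le_rpow_of_exponent_le hTone (by norm_num)
      have h5 : (10 : ℝ) ≤ T ^ (1 / 2 : ℝ) := by
        rw [← Real.sqrt_eq_rpow]
        exact Real.le_sqrt_of_sq_le (by norm_num; linarith)
      linarith
    have h4 : T ^ (11 / 10 : ℝ) * T ^ (9 / 10 : ℝ) = T ^ 2 := by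
      rw [← Real.rpow_add hT0]
      norm_num
    rw [hQ, mul_assoc]
    have h6 : 0 ≤ T ^ (11 / 10 : ℝ) := by positivity
    nlinarith
  have hYi : ∀ i : ℕ, (2 : ℝ) ^ i ≤ 8 * (T ^ (1 + δ) / (NP * X₀)) * NQ → ∀ θ : ℝ, |θ| ≤ 11 →
      ∑ s ∈ RF NP i, ‖xf W (fun t => f t * ex (-(t * Real.log X₀)))
        (Real.log s.1 - Real.log s.2 - Real.log NP + θ)‖ ^ 2 ≤ Y * 2 ^ i := by
    intro i hi θ hθ
    rw [← hQ] at hi
    have hq1 : (1 : ℝ) ≤ 2 ^ i := one_le_pow₀ (by norm_num)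
    have h44 : (4 : ℝ) ^ i = (2 ^ i) ^ 2 := by
      rw [← pow_mul, mul_comm, pow_mul]
      norm_num
    have hA := h4 T W (fun t => f t * ex (-(t * Real.log X₀))) NP i θ hTone hW0 hNP hθ
    have hB := h3 T hT3 W hW0 NP i bP θ hNP hNPT (hi.trans hQT) hbP
    have hAB : ∑ s ∈ RF NP i, ‖xf W (fun t => f t * ex (-(t * Real.log X₀)))
        (Real.log s.1 - Real.log s.2 - Real.log NP + θ)‖ ^ 2 =
        ∑ s ∈ RF NP i, ‖∑ t ∈ W, PP NP bP t * ex (t * (Real.log s.1 - Real.log s.2 + θ))‖ ^ 2 := by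
      refine Finset.sum_congr rfl fun s _ => ?_
      rw [hf]
      rw [MQI_xf hEXA W (PP NP bP) NP X₀ (Real.log s.1 - Real.log s.2) θ hNP0 hX₀0]
    rw [← hAB] at hB
    have hn : ∑ t ∈ W, ‖f t * ex (-(t * Real.log X₀))‖ ^ 2 = ∑ t ∈ W, ‖PP NP bP t‖ ^ 2 := by
      refine Finset.sum_congr rfl fun t _ => ?_
      rw [norm_mul, e1, mul_one, hfn]
    rw [hn] at hA
    rw [h44] at hA hB
    rw [← hb] at hB
    have hK : 0 ≤ (C3 + C4) * b * W.card := by positivity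
    have hA' : ∑ s ∈ RF NP i, ‖xf W (fun t => f t * ex (-(t * Real.log X₀)))
        (Real.log s.1 - Real.log s.2 - Real.log NP + θ)‖ ^ 2 ≤
        (C3 + C4) * b * W.card * (UP ^ 2 * (T + NP * (2 ^ i) ^ 2)) := by
      refine hA.trans ?_
      have g1 : C4 * (T + (NP : ℝ) * (2 ^ i) ^ 2) * ∑ t ∈ W, ‖PP NP bP t‖ ^ 2 ≤
          C4 * (T + (NP : ℝ) * (2 ^ i) ^ 2) * (W.card * UP ^ 2) :=
        mul_le_mul_of_nonneg_left hSP (by positivity)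
      have g2 : C4 ≤ (C3 + C4) * b := by nlinarith
      have g3 : C4 * (T + (NP : ℝ) * (2 ^ i) ^ 2) * (W.card * UP ^ 2) =
          C4 * (W.card * (UP ^ 2 * (T + NP * (2 ^ i) ^ 2))) := by ring
      rw [g3] at g1
      refine g1.trans ?_
      rw [mul_assoc ((C3 + C4) * b)]
      exact mul_le_mul_of_nonneg_right g2 (by positivity)
    have hB' : ∑ s ∈ RF NP i, ‖xf W (fun t => f t * ex (-(t * Real.log X₀)))
        (Real.log s.1 - Real.log s.2 - Real.log NP + θ)‖ ^ 2 ≤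
        (C3 + C4) * b * W.card * (NP * (T + NP ^ 2 * (2 ^ i) ^ 2)) := by
      refine hB.trans ?_
      have g3 : C3 * b * (W.card : ℝ) * NP * (T + (NP : ℝ) ^ 2 * (2 ^ i) ^ 2) =
          C3 * b * W.card * (NP * (T + (NP : ℝ) ^ 2 * (2 ^ i) ^ 2)) := by ring
      rw [g3]
      apply mul_le_mul_of_nonneg_right _ (by positivity)
      apply mul_le_mul_of_nonneg_right _ (by positivity)
      apply mul_le_mul_of_nonneg_right _ (by positivity)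
      linarith
    have hfin := hYM _ ((C3 + C4) * b * W.card) UP T NP (2 ^ i) Q hK hUP hT0.le hNP0.le hq1 hi hA' hB'
    rw [← hr] at hfin
    rw [hY]
    exact hfin
  have hbQ2 : ∀ n ∈ Finset.Ioc NQ (4 * NQ), ‖bQ n‖ ≤ 2 := fun n hn => by
    have := hbQ n hn
    linarith
  have hfn2 : ∑ t ∈ W, ‖f t‖ ^ 2 = ∑ t ∈ W, ‖PP NP bP t‖ ^ 2 :=
    Finset.sum_congr rfl fun t _ => by rw [hfn]
  have J1 := h1 T hT1 W hW NP NQ X₀ bQ f Y hNP hNQ hX0 hNQX' hXT hbQ2 hY0 hYi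
  have J2 := h1 T hT1 W hW NP NQ X₀ (fun n => bQ n * ((Real.log n - Real.log NQ : ℝ) : ℂ)) f Y
    hNP hNQ hX0 hNQX' hXT (MQI_b1 NQ bQ hNQ hbQ) hY0 hYi
  have J3 := h2 T hT2 W hW NP NQ X₀ bQ f Y hNP hNQ hX0 hNQX' hXT hbQ2 hY0 hYi
  have HG := hGLS T W f (NP * X₀) M X₀ NQ bQ hTone hW0 hNQ
  rw [← hM] at J1 J2 J3
  rw [hfn2] at J1 J2 J3
  obtain ⟨ph, -⟩ := hBPH
  -- from W to the mean value
  have hqk : ∀ τ ∈ W, qk W (NP * X₀) X₀ (PP NP bP) τ ≤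
      2 * ∑ k ∈ Finset.Icc 1 ⌊64 * X₀⌋₊, Phi ((k : ℝ) / X₀) *
        ‖FG Phi W f (NP * X₀) M τ k‖ ^ 2 + ∑ t ∈ W, ‖PP NP bP t‖ ^ 2 := by
    intro τ hτ
    have := h5 T hT5 W hW (NP * X₀) X₀ (PP NP bP) M (hX0.trans hX1) hXT2 hX₀0 (by nlinarith) hM1 τ hτ
    rw [hf]
    exact this
  rcases W.eq_empty_or_nonempty with hWe | ⟨t₀, ht₀⟩
  · subst hWe
    simp
  have hVQ3 : VQ ≤ 3 * NQ := (hW2 t₀ ht₀).2.trans (MQI_P3 hEXA NQ bQ hbQ t₀)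
  have hQS : VQ ^ 2 * ∑ τ ∈ W, qk W (NP * X₀) X₀ (PP NP bP) τ ≤
      2 * (10 ^ 5 * (Jg T Phi W f (NP * X₀) M X₀ (Finset.Ioc NQ (4 * NQ)) bQ +
      Jg T Phi W f (NP * X₀) M X₀ (Finset.Ioc NQ (4 * NQ))
        (fun n => bQ n * ((Real.log n - Real.log NQ : ℝ) : ℂ)) +
      Jg T PhL W f (NP * X₀) M X₀ (Finset.Ioc NQ (4 * NQ)) bQ)) +
      VQ ^ 2 * (W.card * ∑ t ∈ W, ‖PP NP bP t‖ ^ 2) := by
    have g1 : VQ ^ 2 * ∑ τ ∈ W, qk W (NP * X₀) X₀ (PP NP bP) τ ≤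
        VQ ^ 2 * ∑ τ ∈ W, (2 * ∑ k ∈ Finset.Icc 1 ⌊64 * X₀⌋₊, Phi ((k : ℝ) / X₀) *
        ‖FG Phi W f (NP * X₀) M τ k‖ ^ 2 + ∑ t ∈ W, ‖PP NP bP t‖ ^ 2) :=
      mul_le_mul_of_nonneg_left (Finset.sum_le_sum hqk) (sq_nonneg _)
    refine g1.trans ?_
    rw [Finset.sum_add_distrib, Finset.sum_const, nsmul_eq_mul, ← Finset.mul_sum, mul_add]
    apply add_le_add_left
    have g2 : VQ ^ 2 * (2 * ∑ τ ∈ W, ∑ k ∈ Finset.Icc 1 ⌊64 * X₀⌋₊, Phi ((k : ℝ) / X₀) *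
        ‖FG Phi W f (NP * X₀) M τ k‖ ^ 2) = 2 * ∑ τ ∈ W, VQ ^ 2 *
        ∑ k ∈ Finset.Icc 1 ⌊64 * X₀⌋₊, Phi ((k : ℝ) / X₀) *
        ‖FG Phi W f (NP * X₀) M τ k‖ ^ 2 := by
      rw [← Finset.mul_sum]
      ring
    rw [g2]
    apply mul_le_mul_of_nonneg_left _ (by norm_num)
    refine le_trans (Finset.sum_le_sum fun τ hτ => ?_) HG
    apply mul_le_mul_of_nonneg_right
    · exact pow_le_pow_left₀ hVQ (hW2 τ hτ).2 2
    · exact Finset.sum_nonneg fun k _ => mul_nonneg (ph _).1 (sq_nonneg _)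
  have hJ : Jg T Phi W f (NP * X₀) M X₀ (Finset.Ioc NQ (4 * NQ)) bQ +
      Jg T Phi W f (NP * X₀) M X₀ (Finset.Ioc NQ (4 * NQ))
        (fun n => bQ n * ((Real.log n - Real.log NQ : ℝ) : ℂ)) +
      Jg T PhL W f (NP * X₀) M X₀ (Finset.Ioc NQ (4 * NQ)) bQ ≤
      (2 * C1 + C2) * T ^ (ε / 2 + 3 * δ) * (NP * X₀ * T * NQ) *
        (X₀ * ∑ t ∈ W, ‖PP NP bP t‖ ^ 2 + Y / NP) := by
    refine (add_le_add (add_le_add J1 J2) J3).trans (le_of_eq ?_)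
    ring
  have := MQI_real VQ (∑ τ ∈ W, qk W (NP * X₀) X₀ (PP NP bP) τ) _ (2 * C1 + C2) (C3 + C4) T NP X₀ NQ
    W.card UP (∑ t ∈ W, ‖PP NP bP t‖ ^ 2) Y r (T ^ (ε / 2 + 3 * δ)) b ε δ hTone hδ hε hNP1
    (by linarith) hNQ1 hNQX' (by positivity) (by linarith) (by positivity) (by positivity) hr0 hSP0
    hSP hVQ hVQ3 rfl hb (by rw [hY, hQ]) hJ hQS
  rw [← hr]
  exact this

end Pool.Agent.NF
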