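import Pool.Agent.helper90.ZD.Assembly
import Pool.Agent.helper20.NF.EXA
import Pool.Agent.helper11.NF.EXB
import Pool.Agent.helper1.NF.DRV
import Pool.Agent.helper78.NF.PRX
import Pool.Agent.helper18.NF.BSX
import Pool.Agent.helper53.NF.CHG
import Pool.Agent.helper4.NF.KGD
import Pool.Agent.helper46.NF.KGT
import Pool.Agent.helper93.NF.GIN
import Pool.Agent.helper43.NF.IID
import Pool.Agent.helper70.NF.IWC
import Pool.Agent.helper13.NF.DII
import Pool.Agent.helper33.NF.DCT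
import Pool.Agent.helper40.NF.DIB
import Pool.Agent.helper24.NF.JEX
import Pool.Agent.helper14.NF.JSP
import Pool.Agent.helper31.NF.TRI
import Pool.Agent.helper97.NF.OFA
import Pool.Agent.helper90.NF.OFB
import Pool.Agent.helper98.NF.RGM
import Pool.Agent.helper8.NF.FAR
import Pool.Agent.helper65.NF.NRR
import Pool.Agent.helper85.NF.QZC
import Pool.Agent.helper81.NF.OFC
import Pool.Agent.helper55.NF.JBD
import Pool.Agent.helper84.NF.LB1
import Pool.Agent.helper63.NF.LB2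
import Pool.Agent.helper58.NF.LBD
import Pool.Agent.helper52.NF.TRB
import Pool.Agent.helper76.NF.GAL
import Pool.Agent.helper99.NF.GLS
import Pool.Agent.helper26.NF.LSC
import Pool.Agent.helper49.NF.YC
import Pool.Agent.helper95.NF.CNT
import Pool.Agent.helper61.NF.YB
import Pool.Agent.helper99.NF.YM
import Pool.Agent.helper4.NF.MQI
import Pool.Agent.helper59.NF.GLV
import Pool.Agent.helper87.NF.LVR
import Pool.Agent.helper50.NF.LVD

/-! # Project nf (MP_4467b5_nt): assembly of parts A and B -/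

set_option autoImplicit false

open Complex MeasureTheory

namespace Pool.Agent.NF

open Pool.Agent.helper84.DM Pool.Agent.helper78.ED Pool.Agent.DH Pool.Agent.ZD

theorem n_exa : EXA_stmt := EXA Pool.Agent.ZD.z_bmu

theorem n_exb : EXB_stmt := EXB Pool.Agent.ZD.z_phs Pool.Agent.ZD.z_gec

theorem n_drv : DRV_stmt := DRV n_exb

theorem n_prx : PRX_stmt := PRX Pool.Agent.ZD.z_poi Pool.Agent.ZD.z_chx Pool.Agent.ZD.z_ibu Pool.Agent.ZD.z_ibz Pool.Agent.ZD.z_phs

theorem n_bsx : BSX_stmt := BSX Pool.Agent.ZD.z_chx Pool.Agent.ZD.z_phs Pool.Agent.ZD.z_ibu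

theorem n_chg : CHG_stmt := CHG

theorem n_kgd : KGD_stmt := KGD n_chg Pool.Agent.ZD.z_rd Pool.Agent.ZD.z_sbo

theorem n_kgt : KGT_stmt := KGT Pool.Agent.ZD.z_chx Pool.Agent.ZD.z_phs Pool.Agent.ZD.z_rd Pool.Agent.ZD.z_sbo

theorem n_gin : GIN_stmt := GIN

theorem n_iid : IID_stmt := IID n_exa n_exb

theorem n_iwc : IWC_stmt := IWC n_drv

theorem n_dii : DII_stmt := DII

theorem n_dct : DCT_stmt := DCT

theorem n_dib : DIB_stmt := DIB n_iid n_dii n_kgd n_gin n_dct n_exb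

theorem n_jex : JEX_stmt := JEX n_exa n_drv

theorem n_jsp : JSP_stmt := JSP n_jex n_iwc n_prx n_bsx n_exa Pool.Agent.ZD.z_crd

theorem n_tri : TRI_stmt := TRI

theorem n_ofa : OFA_stmt := OFA n_tri n_iid n_kgt n_exb

theorem n_ofb : OFB_stmt := OFB n_gin

theorem n_rgm : RGM_stmt := RGM

theorem n_far : FAR_stmt := FAR

theorem n_nrr : NRR_stmt := NRR

theorem n_qzc : QZC_stmt := QZC

theorem n_ofc : OFC_stmt := OFC n_ofa n_ofb n_rgm n_far n_nrr n_qzc

theorem n_jbd : JBD_stmt := JBD n_jsp n_dib n_ofc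

theorem n_lb1 : LB1_stmt := LB1 n_exa Pool.Agent.ZD.z_bph

theorem n_lb2 : LB2_stmt := LB2 n_exa Pool.Agent.ZD.z_bph

theorem n_lbd : LBD_stmt := LBD n_lb1 n_lb2

theorem n_trb : TRB_stmt := TRB n_prx n_bsx n_exa n_exb Pool.Agent.ZD.z_crd Pool.Agent.ZD.z_bph

theorem n_gal : GAL_stmt := GAL Pool.Agent.ZD.z_bg1 Pool.Agent.ZD.z_bgd

theorem n_gls : GLS_stmt := GLS n_gal n_drv n_exa n_exb Pool.Agent.ZD.z_phs

theorem n_lsc : LSC_stmt := LSC Pool.Agent.ZD.z_bg1 n_qzc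

theorem n_yc : YC_stmt := YC n_lsc

theorem n_cnt : CNT_stmt := CNT

theorem n_yb : YB_stmt := YB n_cnt Pool.Agent.ZD.z_bls n_exa

theorem n_ym : YM_stmt := YM

theorem n_mqi : MQI_stmt := MQI n_trb n_gls n_jbd n_yc n_yb n_ym n_exa n_exb Pool.Agent.ZD.z_crd Pool.Agent.ZD.z_bph

theorem n_glv : GLV_stmt := GLV n_lbd n_mqi n_exa

theorem n_lvr : LVR_stmt := LVR

theorem n_lvd : LVD_stmt := LVD n_glv n_lvr

end Pool.Agent.NF
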