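import Pool.Agent.helper84.ZD.SpecA
import Pool.Agent.helper90.ZD.SpecB

/-!
# Project nf (MP_4467b5_nt): a large values theorem and zero density with A = 9/4. Definitions

Paper: `/team-store/MP_4467b5_NF_helper4.md` (the inequality is due to helper6; helper4 has an
independent version). Notation of the library: `Sep δ T W`, `DP N a u = ∑ n ∈ Ioc N (2N), a n n^(-iu)`,
`DG A b u = ∑ n ∈ A, b n n^(-iu)`, `Phi`, `phi`, `BX`, `mu`, `ee`, `MM`, `EE`, `Bs`, `kap`, `GE`, `SB`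
(`Pool.Agent.ZD`), `d n` (`Pool.Agent.helper84.DM`).
-/

set_option autoImplicit false

open Complex MeasureTheory

namespace Pool.Agent.NF

open Pool.Agent.helper84.DM Pool.Agent.helper78.ED Pool.Agent.DH Pool.Agent.ZD

/-! ## Interface -/

/-- **LVD** (final statement of parts A and B): the new large values theorem (D). -/
def LVD_stmt : Prop := ∀ ε : ℝ, 0 < ε → ∃ δ₀ : ℝ, 0 < δ₀ ∧ ∀ δ : ℝ, 0 < δ → δ ≤ δ₀ →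
  ∃ C T₀ : ℝ, 0 < C ∧ ∀ T : ℝ, T₀ ≤ T → ∀ W : Finset ℝ, Sep δ T W → ∀ (N : ℕ) (a : ℕ → ℂ) (V : ℝ),
  1 ≤ N → (N : ℝ) ≤ T ^ (1 / 2 : ℝ) → (N : ℝ) ^ (1 / 2 : ℝ) ≤ V →
  (∀ n ∈ Finset.Ioc N (2 * N), ‖a n‖ ≤ 1) → (∀ t ∈ W, V ≤ ‖DP N a t‖) →
  (W.card : ℝ) ≤ C * T ^ ε * (T ^ (3 / 4 : ℝ) * (N : ℝ) ^ 4 / V ^ 6 + T * (N : ℝ) ^ 4 / V ^ 7 +
    T ^ (1 / 2 : ℝ) * (N : ℝ) ^ 3 / V ^ 4)

/-! ## Definitions -/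

/-- `e^(ix)`. -/
noncomputable def ex (x : ℝ) : ℂ := Complex.exp ((x : ℂ) * I)

/-- Real smooth functions with support in `[1/2, 64]`. -/
def SR (g : ℝ → ℝ) : Prop := SB (fun y => ((g y : ℝ) : ℂ))

/-- The second weight, `Phi y log y`. -/
noncomputable def PhL (y : ℝ) : ℝ := Phi y * Real.log y

/-- The function `g(e^x) e^x EE X M x`; for `g = Phi` it is `GE X M x`. -/
noncomputable def GW (g : ℝ → ℝ) (X : ℝ) (M : ℕ) (x : ℝ) : ℂ :=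
  ((g (Real.exp x) * Real.exp x : ℝ) : ℂ) * EE X M x

/-- The Fourier transform of `GW g X M`; for `g = Phi` it is `Bs X M`. -/
noncomputable def BW (g : ℝ → ℝ) (X : ℝ) (M : ℕ) (u : ℝ) : ℂ := ∫ x : ℝ, GW g X M x * ex (-(u * x))

/-- `∑ t ∈ W, f(t) e^(ita)`. -/
noncomputable def xf (W : Finset ℝ) (f : ℝ → ℂ) (a : ℝ) : ℂ := ∑ t ∈ W, f t * ex (t * a)

/-- `∫ |Q(τ)|² e^(-(τ/T)²) e^(-iτv) dτ` for the Dirichlet polynomial `Q = DG A b`. -/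
noncomputable def ZQ (T : ℝ) (A : Finset ℕ) (b : ℕ → ℂ) (v : ℝ) : ℂ :=
  ((Real.sqrt Real.pi * T : ℝ) : ℂ) * ∑ n ∈ A, ∑ n' ∈ A, b n * (starRingEnd ℂ) (b n') *
    ((Real.exp (-(T * (v + Real.log n - Real.log n')) ^ 2 / 4) : ℝ) : ℂ)

/-- `∫ |Q(τ)|² B(τ-t₁) conj B(τ-t₂) e^(-(τ/T)²) dτ`. -/
noncomputable def IW (T : ℝ) (g : ℝ → ℝ) (X : ℝ) (M : ℕ) (A : Finset ℕ) (b : ℕ → ℂ)
    (t₁ t₂ : ℝ) : ℂ :=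
  ∫ τ : ℝ, ((‖DG A b τ‖ ^ 2 * Real.exp (-(τ / T) ^ 2) : ℝ) : ℂ) *
    (BW g X M (τ - t₁) * (starRingEnd ℂ) (BW g X M (τ - t₂)))

/-- `∑ t ∈ W, f(t) k^(-it) B(τ-t)`. -/
noncomputable def FG (g : ℝ → ℝ) (W : Finset ℝ) (f : ℝ → ℂ) (X : ℝ) (M : ℕ) (τ : ℝ) (k : ℕ) : ℂ :=
  ∑ t ∈ W, f t * ex (-(t * Real.log k)) * BW g X M (τ - t)

/-- The smooth mean value `∑ k, Phi(k/X₀) ∫ |Q(τ)|² |FG(τ,k)|² e^(-(τ/T)²) dτ`. -/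
noncomputable def Jg (T : ℝ) (g : ℝ → ℝ) (W : Finset ℝ) (f : ℝ → ℂ) (X : ℝ) (M : ℕ) (X₀ : ℝ)
    (A : Finset ℕ) (b : ℕ → ℂ) : ℝ :=
  ∑ k ∈ Finset.Icc 1 ⌊64 * X₀⌋₊, Phi ((k : ℝ) / X₀) *
    ∫ τ : ℝ, ‖DG A b τ‖ ^ 2 * ‖FG g W f X M τ k‖ ^ 2 * Real.exp (-(τ / T) ^ 2)

/-- The kernel of the off-diagonal terms. -/
noncomputable def KB (T X X₀ : ℝ) (M M₀ NQ : ℕ) (a b : ℝ) : ℝ :=
  ∑ n ∈ Finset.Ioc NQ (4 * NQ), ∑ n' ∈ Finset.Ioc NQ (4 * NQ),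
    ∑ m₁ ∈ MM M, ∑ m₂ ∈ MM M, ∑ m₃ ∈ MM M₀,
      Real.exp (-(T * (a - b + Real.log n - Real.log n')) ^ 2 / 4) *
        kap (X * ((m₁ : ℝ) * Real.exp a - m₂ * Real.exp b) + X₀ * m₃)

/-- The reduced fractions `p/q` with `2^i ≤ q < 2^(i+1)` and `N/400 ≤ p/q ≤ 400 N`. -/
def RF (N i : ℕ) : Finset (ℕ × ℕ) :=
  ((Finset.Icc 1 (400 * N * 2 ^ (i + 1))) ×ˢ (Finset.Ico (2 ^ i) (2 ^ (i + 1)))).filter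
    fun r => Nat.Coprime r.1 r.2 ∧ N * r.2 ≤ 400 * r.1 ∧ r.1 ≤ 400 * N * r.2

/-- `∑ t ∈ W, t ≠ τ, BX(τ-t) P(t) k^(-it)`. -/
noncomputable def FK (W : Finset ℝ) (X : ℝ) (P : ℝ → ℂ) (τ : ℝ) (k : ℕ) : ℂ :=
  ∑ t ∈ W, if t = τ then 0 else BX X (τ - t) * P t * ex (-(t * Real.log k))

/-- `∑ k, Phi(k/X₀) |FK(τ,k)|²`. -/
noncomputable def qk (W : Finset ℝ) (X X₀ : ℝ) (P : ℝ → ℂ) (τ : ℝ) : ℝ :=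
  ∑ k ∈ Finset.Icc 1 ⌊64 * X₀⌋₊, Phi ((k : ℝ) / X₀) * ‖FK W X P τ k‖ ^ 2

end Pool.Agent.NF
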