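import Pool.Agent.helper4.NF.Defs

/-!
# Project nf (MP_4467b5_nt), part A: the mean value `Jg` and its kernels

Paper: `/team-store/MP_4467b5_NF_helper4.md`. Every module proves one statement:
`theorem XX (h : YY_stmt) ... : XX_stmt` in the file `Pool/Agent/<seat>/NF/XX.lean`, namespace
`Pool.Agent.NF`, `import Pool.Agent.helper4.NF.SpecA` (plus library files). Hypotheses: the
statements named under `uses` (you may take more; no circles). Statements with names of the project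
zd (`RD_stmt`, `GEC_stmt`, `PHS_stmt`, `SBO_stmt`, `IBU_stmt`, `BG1_stmt`, `BLS_stmt`, …, namespace
`Pool.Agent.ZD`) are all proved (`Pool/Agent/*/ZD/XX.lean`) and may always be hypotheses. Auxiliary
lemmas are prefixed `XX_`. No `sorry`, no double quotes.

Conventions: `W` is a finite set of reals, `ex x = e^(ix)`, `xf W f a = ∑ t ∈ W, f t ex (t a)`,
`kap x = 1/(1+x²)`, `MM M` = the nonzero integers `m` with `|m| ≤ M`. All functions `GW g X M` are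
continuous with support in `[-5, 5]`.
-/

set_option autoImplicit false

open Complex MeasureTheory

namespace Pool.Agent.NF

open Pool.Agent.helper84.DM Pool.Agent.helper78.ED Pool.Agent.DH Pool.Agent.ZD

/-! ## 1. Elementary facts -/

/-- **EXA** (short). uses: BPH_stmt, BMU_stmt (zd). For a natural number `n ≥ 1`:
`n^(-(u I)) = exp (-(u log n) I)` (`Complex.cpow_def_of_ne_zero`, `Complex.natCast_log`; compare `LV_cpow`).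
`BX X 0 = mu X` because `ex 0 = 1`. -/
def EXA_stmt : Prop :=
  (∀ x : ℝ, ‖ex x‖ = 1) ∧ (∀ x y : ℝ, ex (x + y) = ex x * ex y) ∧
  (∀ x : ℝ, (starRingEnd ℂ) (ex x) = ex (-x)) ∧ ex 0 = 1 ∧
  (∀ (n : ℕ) (u : ℝ), 1 ≤ n → (n : ℂ) ^ (-((u : ℂ) * I)) = ex (-(u * Real.log n))) ∧
  (∀ (A : Finset ℕ) (b : ℕ → ℂ) (u : ℝ), 0 ∉ A →
    DG A b u = ∑ n ∈ A, b n * ex (-(u * Real.log n))) ∧
  (∀ X u : ℝ, BX X u = ∑ k ∈ Finset.Icc 1 ⌊64 * X⌋₊,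
    ((Phi ((k : ℝ) / X) : ℝ) : ℂ) * ex (-(u * Real.log k))) ∧
  (∀ X : ℝ, BX X 0 = ((mu X : ℝ) : ℂ)) ∧ (∀ X : ℝ, 1 ≤ X → 0 ≤ mu X ∧ mu X ≤ 64 * X)

/-- **EXB** (medium). uses: PHS_stmt, GEC_stmt (zd).
Proof. `SR Phi` is in PHS. `SR PhL`: `y ↦ Phi y * log y` is smooth near every `y > 0`, and
identically `0` for `y < 1/2`. `phi x = Phi (e^x) e^x`, so `GW Phi X M = GE X M` by definition, and GEC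
gives the fourth item. Fifth: `log (e^x) = x`. Sixth: `g (e^x) ≠ 0` only for `1/2 ≤ e^x ≤ 64`, so
`|x| < 5`; continuity: `g = re` of a smooth function; `EE X M` is continuous. -/
def EXB_stmt : Prop :=
  SR Phi ∧ SR PhL ∧ (∀ (X : ℝ) (M : ℕ) (x : ℝ), GW Phi X M x = GE X M x) ∧
  (∀ (X : ℝ) (M : ℕ) (u : ℝ), BW Phi X M u = Bs X M u) ∧
  (∀ (X : ℝ) (M : ℕ) (x : ℝ), (x : ℂ) * GW Phi X M x = GW PhL X M x) ∧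
  (∀ g : ℝ → ℝ, SR g → ∀ (X : ℝ) (M : ℕ), Continuous (GW g X M) ∧ ∀ x, 5 < |x| → GW g X M x = 0)

/-- **DRV** (medium). uses: EXB_stmt.
Proof. `BW g X M u = ∫ GW g X M x * exp (-(u x) I) dx`, `GW g X M` continuous with compact support: the
norm is at most `∫ ‖GW‖`, and the integral is differentiable in `u` with derivative
`∫ GW x * (-(x I)) * ex (-(u x)) dx` (`hasDerivAt_integral_of_dominated_loc_of_deriv_le`; the derivative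
of the integrand is bounded by `5 ‖GW x‖`). For `g = Phi` use `x * GW Phi X M x = GW PhL X M x`. -/
def DRV_stmt : Prop :=
  (∀ g : ℝ → ℝ, SR g → ∀ (X : ℝ) (M : ℕ), Continuous (BW g X M) ∧ ∃ B : ℝ, ∀ u, ‖BW g X M u‖ ≤ B) ∧
  ∀ (X : ℝ) (M : ℕ) (u : ℝ), HasDerivAt (BW Phi X M) (-(I * BW PhL X M u)) u

/-- **PRX** (medium). uses: POI_stmt, CHX_stmt, IBU_stmt, IBZ_stmt, PHS_stmt (zd). Copy of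
`Pool/Agent/helper60/ZD/PR2.lean` (`PR2_stmt`) with `T^(1/2) ≤ X` replaced by `1 ≤ X`.
Proof. As there: `j = ⌈(A + 3)/δ⌉₊ + 2`, the difference is at most
`X (‖HH u 0‖ + ∑_(|m| > M) ‖HH u (m X)‖)`, `X ‖HH u 0‖ ≤ C T^(1+δ) T^(-δ j)`, and
`∑ ≤ C (2T)^j X^(1-j) 2 (M+1)^(1-j) ≤ C' T^j X^(1-j) (T^(1+δ)/X)^(1-j) = C' T^(1+δ-δj)`: the lower bound
for `X` is not used. -/
def PRX_stmt : Prop := ∀ A δ : ℝ, 0 < A → 0 < δ → δ ≤ 1 / 10 → ∃ C T₀ : ℝ, 0 < C ∧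
  ∀ T : ℝ, T₀ ≤ T → ∀ X : ℝ, 1 ≤ X → X ≤ T ^ (1 + δ) → ∀ u : ℝ, T ^ δ ≤ |u| → |u| ≤ T →
  ∀ M : ℕ, T ^ (1 + δ) / X ≤ (M : ℝ) + 1 →
    ‖BX X u - ex (-(u * Real.log X)) * Bs X M u‖ ≤ C * T ^ (-A)

/-- **BSX** (short/medium). uses: CHX_stmt, PHS_stmt, IBU_stmt (zd). Copy of the third part of
`Pool/Agent/helper63/ZD/BSB.lean` (`BSB_stmt`) with `T^(1/2) ≤ X` replaced by `T^(1/4) ≤ X`
(`j = ⌈4 A⌉₊ + 3`: `‖Bs X M 0‖ ≤ X ∑ C |m|^(-2) X^(-j) ≤ 4 C X^(1-j)`). -/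
def BSX_stmt : Prop := ∀ A : ℝ, 0 < A → ∃ C : ℝ, 0 < C ∧ ∀ T X : ℝ, 1 ≤ T → T ^ (1 / 4 : ℝ) ≤ X →
  ∀ M : ℕ, ‖Bs X M 0‖ ≤ C * T ^ (-A)

/-- **CHG** (short/medium). uses: nothing. Change of variables `y = e^x`. Compare
`Pool/Agent/helper34/ZD/CHX.lean` (first part): restrict to `y > 0` (`g y = 0` for `y ≤ 0`) and
`MeasureTheory.integral_image_eq_integral_abs_deriv_smul` with `Real.exp` (range `Ioi 0`). -/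
def CHG_stmt : Prop := ∀ g : ℝ → ℝ, (∀ y : ℝ, y ≤ 0 → g y = 0) → ∀ F : ℝ → ℂ,
  ∫ x : ℝ, ((g (Real.exp x) * Real.exp x : ℝ) : ℂ) * F (Real.exp x) = ∫ y : ℝ, ((g y : ℝ) : ℂ) * F y

/-! ## 2. Kernels -/

/-- **KGD** (medium). uses: CHG_stmt, RD_stmt, SBO_stmt, EXB_stmt. Copy of
`Pool/Agent/helper20/ZD/K2B.lean`. The quadratic kernel.
Proof. If the integrand is not `0` for some `y` then `e^y, e^(y+a) ∈ [1/2, 64]`, so `|a| < 5`. Multiply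
out: the `(m, m')` term is `X² ∫ g(e^(y+a)) e^(y+a) g(e^y) e^y ee(-(X (m e^a - m') e^y)) dy
= X² e^a ∫ g(e^a s) (s g(s)) ee(-(X (m e^a - m')) s) ds` (CHG with the weight `g`), and RD with `f = g`,
`g = 1`, `h s = s g s`, `α = e^a`, `β = 0` (for `|a| ≤ 5`). `g` and its derivatives are bounded: smooth
with compact support (SBO twice). -/
def KGD_stmt : Prop := ∀ g : ℝ → ℝ, SR g → ∃ C : ℝ, 0 < C ∧ ∀ (X : ℝ) (M : ℕ) (a : ℝ),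
  (5 < |a| → ∫ y : ℝ, GW g X M (y + a) * (starRingEnd ℂ) (GW g X M y) = 0) ∧
  ‖∫ y : ℝ, GW g X M (y + a) * (starRingEnd ℂ) (GW g X M y)‖
    ≤ C * X ^ 2 * ∑ m ∈ MM M, ∑ m' ∈ MM M, kap (X * ((m : ℝ) * Real.exp a - m'))

/-- **KGT** (medium). uses: CHG_stmt (or CHX_stmt), RD_stmt, SBO_stmt, PHS_stmt, EXB_stmt. Compare
`Pool/Agent/helper90/ZD/K3B.lean`. The triple kernel.
Proof. As KGD: `conj (ee y) = ee (-y)`, the product of the three exponentials is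
`ee(-((X (m₁ e^a - m₂ e^b) + X₀ m₃) e^z))`, and
`g(e^(z+a)) e^(z+a) g(e^(z+b)) e^(z+b) phi(z) dz = e^(a+b) g(e^a s) g(e^b s) (s² Phi s) ds`, `s = e^z`; RD
with `f = g = g`, `h s = s² Phi s`, `α = e^a`, `β = e^b`; `e^(a+b) ≤ e^10` (`|a|, |b| ≤ 5`). If `5 < |a|` or
`5 < |b|` the integrand is `0`. -/
def KGT_stmt : Prop := ∀ g : ℝ → ℝ, SR g → ∃ C : ℝ, 0 < C ∧ ∀ (X X₀ : ℝ) (M M₀ : ℕ) (a b : ℝ),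
  0 ≤ X₀ →
  ((5 < |a| ∨ 5 < |b|) →
    ∫ z : ℝ, GW g X M (z + a) * (starRingEnd ℂ) (GW g X M (z + b)) * GE X₀ M₀ z = 0) ∧
  ‖∫ z : ℝ, GW g X M (z + a) * (starRingEnd ℂ) (GW g X M (z + b)) * GE X₀ M₀ z‖
    ≤ C * X ^ 2 * X₀ * ∑ m₁ ∈ MM M, ∑ m₂ ∈ MM M, ∑ m₃ ∈ MM M₀,
        kap (X * ((m₁ : ℝ) * Real.exp a - m₂ * Real.exp b) + X₀ * m₃)

/-- **GIN** (medium). uses: nothing. Gaussian average of `kap`.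
Proof. For `|b| ≤ 5`, `|y₀| ≤ 7`: `|e^b - e^(y₀)| ≤ e^7 |b - y₀|`. For all reals
`kap z ≤ 2 (1 + (z - z₀)²) kap z₀` (as `1 + z₀² ≤ 2 (1 + z²)(1 + (z-z₀)²)`). So with `x = T (b - y₀)` and
`z₀ = α e^(y₀) + β` the integrand is at most
`2 (1 + e^14 E² x²) e^(-x²/4) kap z₀ ≤ C E² e^(-x²/8) kap z₀`, and `∫ e^(-x²/8) db = √(8π)/T` (over all of
`ℝ`). -/
def GIN_stmt : Prop := ∃ C : ℝ, 0 < C ∧ ∀ T E α β y₀ : ℝ, 1 ≤ T → 1 ≤ E → |α| ≤ E * T → |y₀| ≤ 7 →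
  ∫ b in (-5 : ℝ)..5, Real.exp (-(T * (b - y₀)) ^ 2 / 4) * kap (α * Real.exp b + β)
    ≤ C * E ^ 2 / T * kap (α * Real.exp y₀ + β)

/-! ## 3. The diagonal terms of `Jg` -/

/-- **IID** (medium/long). uses: EXA_stmt, EXB_stmt, DRV_stmt.
Proof. `‖DG A b τ‖² = ∑ n n', b n conj (b n') ex (-(τ (log n - log n')))`;
`BW (τ-t₁) conj (BW (τ-t₂)) = ∫ x₁ ∫ x₂, GW x₁ conj (GW x₂) ex (-((τ-t₁) x₁) + (τ-t₂) x₂)`. The function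
of `(τ, x₁, x₂)` is continuous and bounded by `C e^(-(τ/T)²)` on a compact set of `(x₁, x₂)`, zero outside:
Fubini, and `∫ e^(-(τ/T)²) ex (-(τ v)) dτ = √π T e^(-(T v)²/4)` with `v = x₁ - x₂ + log n - log n'`
(`fourierIntegral_gaussian`; compare `BLG` in `Pool/Agent/helper1/ZD/BLG.lean`). -/
def IID_stmt : Prop := ∀ g : ℝ → ℝ, SR g → ∀ (T X : ℝ) (M : ℕ) (A : Finset ℕ) (b : ℕ → ℂ),
  0 < T → 0 ∉ A → ∀ t₁ t₂ : ℝ, IW T g X M A b t₁ t₂ =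
    ∫ x₁ : ℝ, ∫ x₂ : ℝ, GW g X M x₁ * (starRingEnd ℂ) (GW g X M x₂) * ZQ T A b (x₁ - x₂) *
      ex (t₁ * x₁ - t₂ * x₂)

/-- **IWC** (short/medium). uses: DRV_stmt. Cauchy–Schwarz.
Proof. The integrands are continuous and bounded by `C e^(-(τ/T)²)`, hence integrable;
`IW t t = ∫ ‖Q‖² ‖B(τ-t)‖² e^… ≥ 0` is real and `‖u conj v‖ ≤ (‖u‖² + ‖v‖²)/2` pointwise. -/
def IWC_stmt : Prop := ∀ g : ℝ → ℝ, SR g → ∀ (T X : ℝ) (M : ℕ) (A : Finset ℕ) (b : ℕ → ℂ),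
  0 < T → ∀ t₁ t₂ : ℝ,
  ‖IW T g X M A b t₁ t₂‖ ≤ (‖IW T g X M A b t₁ t₁‖ + ‖IW T g X M A b t₂ t₂‖) / 2

/-- **DII** (medium). uses: nothing.
Proof. `ex (t x₁ - t x₂) = ex (t (x₁ - x₂))`. Exchange the two integrals, substitute `x₁ = y + a`, `x₂ = y`
(translation invariance for fixed `y`), exchange again; all integrands are continuous with compact
support. -/
def DII_stmt : Prop := ∀ G Z : ℝ → ℂ, Continuous G → Continuous Z → (∀ x, 5 < |x| → G x = 0) →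
  ∀ t : ℝ, ∫ x₁ : ℝ, ∫ x₂ : ℝ, G x₁ * (starRingEnd ℂ) (G x₂) * Z (x₁ - x₂) * ex (t * x₁ - t * x₂)
    = ∫ a : ℝ, ex (t * a) * Z a * ∫ y : ℝ, G (y + a) * (starRingEnd ℂ) (G y)

/-- **DCT** (medium). uses: nothing. Counting for the diagonal terms.
Proof. Fix `m` and `n'` (`2 M · 3 N` choices). For `n ∈ (N, 4N]`, `m' ∈ MM M` let `v = m' n`, a nonzero
integer, `|v| ≤ 4 M N`; as `n` is a divisor of `|v|` and `m' = v/n`, each `v` occurs at most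
`d |v| ≤ D` times. So the inner sum is at most `D ∑_(v ∈ ℤ) kap (Λ (m n' - v)) ≤
D ∑_(h ∈ ℤ) 1/(1 + h²/16) ≤ 20 D` (finite sums suffice). -/
def DCT_stmt : Prop := ∃ C : ℝ, 0 < C ∧ ∀ (M N : ℕ) (D Λ : ℝ), 1 ≤ N → 1 / 4 ≤ Λ →
  (∀ k : ℕ, 1 ≤ k → k ≤ 4 * M * N → d k ≤ D) →
  ∑ n ∈ Finset.Ioc N (4 * N), ∑ n' ∈ Finset.Ioc N (4 * N), ∑ m ∈ MM M, ∑ m' ∈ MM M,
    kap (Λ * ((m : ℝ) * n' - m' * n)) ≤ C * M * N * D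

/-- **DIB** (medium/long). uses: IID_stmt, DII_stmt, KGD_stmt, GIN_stmt, DCT_stmt, EXB_stmt.
Proof. IID (`t₁ = t₂ = t`), DII (`G = GW g X M`, `Z = ZQ …` continuous) and KGD:
`‖IW t t‖ ≤ ∫_(-5)^5 ‖ZQ a‖ C X² ∑ m m' kap (X (m e^a - m')) da`, and
`‖ZQ a‖ ≤ 4 √π T ∑ n n', e^(-(T (a - y₀))²/4)`, `y₀ = log n' - log n`, `|y₀| ≤ log 4 ≤ 7`. GIN with
`α = X m` (`|α| ≤ X M ≤ E T`), `β = -X m'`: the `a`-integral is at most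
`(C E²/T) kap (X (m n'/n - m')) ≤ (C E²/T) kap (Λ (m n' - m' n))`, `Λ = X/(4N) ≥ 1/4`, because
`X/n ≥ X/(4N)` and `kap` decreases. DCT. (`X ≥ N ≥ 1`; `T · (1/T) = 1`.) -/
def DIB_stmt : Prop := ∀ g : ℝ → ℝ, SR g → ∃ C : ℝ, 0 < C ∧ ∀ (T E X D : ℝ) (M N : ℕ) (b : ℕ → ℂ)
  (t : ℝ), 1 ≤ T → 1 ≤ E → 1 ≤ N → (N : ℝ) ≤ X → X * M ≤ E * T →
  (∀ k : ℕ, 1 ≤ k → k ≤ 4 * M * N → d k ≤ D) → (∀ n ∈ Finset.Ioc N (4 * N), ‖b n‖ ≤ 2) →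
  ‖IW T g X M (Finset.Ioc N (4 * N)) b t t‖ ≤ C * E ^ 2 * D * X ^ 2 * M * N

/-! ## 4. Expansion of `Jg` -/

/-- **JEX** (medium). uses: EXA_stmt, DRV_stmt.
Proof. Multiply out `‖FG g W f X M τ k‖² = FG * conj FG`:
`∑ t₁ t₂, f t₁ conj (f t₂) ex (-((t₁ - t₂) log k)) BW (τ-t₁) conj (BW (τ-t₂))`; exchange the finite sums
and the integral (integrability: continuous, bounded by `C e^(-(τ/T)²)`), and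
`∑ k, Phi (k/X₀) ex (-((t₁ - t₂) log k)) = BX X₀ (t₁ - t₂)`. -/
def JEX_stmt : Prop := ∀ g : ℝ → ℝ, SR g → ∀ (T : ℝ) (W : Finset ℝ) (f : ℝ → ℂ) (X : ℝ) (M : ℕ)
  (X₀ : ℝ) (A : Finset ℕ) (b : ℕ → ℂ), 0 < T →
  ((Jg T g W f X M X₀ A b : ℝ) : ℂ) = ∑ t₁ ∈ W, ∑ t₂ ∈ W, f t₁ * (starRingEnd ℂ) (f t₂) *
    BX X₀ (t₁ - t₂) * IW T g X M A b t₁ t₂

/-- **JSP** (medium). uses: JEX_stmt, IWC_stmt, PRX_stmt, BSX_stmt, EXA_stmt, CRD_stmt (zd).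
Proof. `R = W.card ≤ T + 1` (CRD). All `‖IW t₁ t₂‖ ≤ DI` (IWC). In JEX the terms `t₁ = t₂` are at most
`mu X₀ ‖f t‖² DI ≤ 64 X₀ ‖f t‖² DI`. For `t₁ ≠ t₂`: `T^δ ≤ |t₁-t₂| ≤ T` and PRX (`A = 3`) replaces
`BX X₀ (t₁-t₂)` by `ex (-(t₁ log X₀)) ex (t₂ log X₀) Bs X₀ M₀ (t₁-t₂)` with an error
`C T^(-3) ∑ ‖f t₁‖ ‖f t₂‖ DI ≤ C T^(-3) R DI ∑ ‖f‖² ≤ DI ∑ ‖f‖²` for `T ≥ T₀`. Adding the terms `t₁ = t₂` with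
`Bs X₀ M₀ 0` costs `C T^(-3) DI ∑ ‖f‖² ≤ DI ∑ ‖f‖²` (BSX). -/
def JSP_stmt : Prop := ∀ δ : ℝ, 0 < δ → δ ≤ 1 / 10 → ∃ T₀ : ℝ, ∀ T : ℝ, T₀ ≤ T →
  ∀ W : Finset ℝ, Sep δ T W → ∀ g : ℝ → ℝ, SR g → ∀ (X : ℝ) (M : ℕ) (X₀ : ℝ) (M₀ : ℕ)
  (A : Finset ℕ) (b : ℕ → ℂ) (f : ℝ → ℂ) (DI : ℝ), T ^ (1 / 4 : ℝ) ≤ X₀ → X₀ ≤ T ^ (1 + δ) →
  T ^ (1 + δ) / X₀ ≤ (M₀ : ℝ) + 1 → 0 ≤ DI → (∀ t ∈ W, ‖IW T g X M A b t t‖ ≤ DI) →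
  Jg T g W f X M X₀ A b ≤ (64 * X₀ + 2) * DI * ∑ t ∈ W, ‖f t‖ ^ 2 +
    ‖∑ t₁ ∈ W, ∑ t₂ ∈ W, (f t₁ * ex (-(t₁ * Real.log X₀))) *
      (starRingEnd ℂ) (f t₂ * ex (-(t₂ * Real.log X₀))) * Bs X₀ M₀ (t₁ - t₂) *
      IW T g X M A b t₁ t₂‖

/-- **TRI** (LONG). uses: nothing. Triple identity. Compare `Pool/Agent/helper77/ZD/CDI.lean`.
Proof. `ex (t₁ x₁ - t₂ x₂) ex (-((t₁-t₂) z)) = ex (t₁ (x₁-z)) ex (-(t₂ (x₂-z)))`, so the left side is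
`∫ z ∫ x₁ ∫ x₂, H z G x₁ conj (G x₂) Z (x₁-x₂) xf (x₁-z) conj (xf (x₂-z))`. For fixed `z` substitute
`x₁ = z + a`, `x₂ = z + b` (translation invariance, twice); then exchange the integral over `z` with those
over `a` and `b` (continuous with compact support in `(z, a, b)`: `|z| ≤ 5`, `|a|, |b| ≤ 10`). -/
def TRI_stmt : Prop := ∀ G H Z : ℝ → ℂ, Continuous G → Continuous H → Continuous Z →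
  (∀ x, 5 < |x| → G x = 0) → (∀ x, 5 < |x| → H x = 0) → ∀ (W : Finset ℝ) (f : ℝ → ℂ),
  ∑ t₁ ∈ W, ∑ t₂ ∈ W, f t₁ * (starRingEnd ℂ) (f t₂) * (∫ z : ℝ, H z * ex (-((t₁ - t₂) * z))) *
      (∫ x₁ : ℝ, ∫ x₂ : ℝ, G x₁ * (starRingEnd ℂ) (G x₂) * Z (x₁ - x₂) * ex (t₁ * x₁ - t₂ * x₂))
    = ∫ a : ℝ, ∫ b : ℝ, xf W f a * (starRingEnd ℂ) (xf W f b) * Z (a - b) *
        ∫ z : ℝ, G (z + a) * (starRingEnd ℂ) (G (z + b)) * H z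

/-- **OFA** (medium/long). uses: TRI_stmt, IID_stmt, KGT_stmt, EXB_stmt, EXA_stmt.
Proof. `Bs X₀ M₀ u = ∫ GE X₀ M₀ z ex (-(u z)) dz` (EXB), IID, TRI with `G = GW g X M`, `H = GE X₀ M₀`,
`Z = ZQ T (Ioc N (4N)) b`; norms inside; the kernel vanishes unless `|a|, |b| ≤ 5` and is bounded by KGT;
`‖ZQ v‖ ≤ 4 √π T ∑ n n', e^(-(T (v + log n - log n'))²/4)`. So the left side is at most
`C T X² X₀ ∫∫_([-5,5]²) ‖xf a‖ ‖xf b‖ KB a b`; `‖xf a‖ ‖xf b‖ ≤ (‖xf a‖² + ‖xf b‖²)/2`, and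
`KB b a = KB a b` (exchange `n, n'` and `m₁, m₂`, replace `m₃` by `-m₃`; `kap` is even), so both halves
are equal (`intervalIntegral` Fubini, continuous functions). -/
def OFA_stmt : Prop := ∀ g : ℝ → ℝ, SR g → ∃ C : ℝ, 0 < C ∧ ∀ (T X X₀ : ℝ) (M M₀ N : ℕ)
  (b : ℕ → ℂ) (W : Finset ℝ) (f : ℝ → ℂ), 0 < T → 0 ≤ X₀ → 1 ≤ N →
  (∀ n ∈ Finset.Ioc N (4 * N), ‖b n‖ ≤ 2) →
  ‖∑ t₁ ∈ W, ∑ t₂ ∈ W, f t₁ * (starRingEnd ℂ) (f t₂) * Bs X₀ M₀ (t₁ - t₂) *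
      IW T g X M (Finset.Ioc N (4 * N)) b t₁ t₂‖
    ≤ C * T * X ^ 2 * X₀ * ∫ a in (-5 : ℝ)..5, ‖xf W f a‖ ^ 2 *
        ∫ b' in (-5 : ℝ)..5, KB T X X₀ M M₀ N a b'

/-- **OFB** (medium). uses: GIN_stmt.
Proof. For every `(n, n', m₁, m₂, m₃)` GIN with `y₀ = a + log n - log n'` (`|y₀| ≤ 5 + log 4 ≤ 7`),
`α = -X m₂` (`|α| ≤ X M ≤ E T`), `β = X m₁ e^a + X₀ m₃`; `α e^(y₀) + β = X e^a (m₁ - m₂ n/n') + X₀ m₃`. The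
integral of the finite sum is the sum of the integrals (continuous). -/
def OFB_stmt : Prop := ∃ C : ℝ, 0 < C ∧ ∀ (T E X X₀ : ℝ) (M M₀ N : ℕ) (a : ℝ), 1 ≤ T → 1 ≤ E →
  0 ≤ X → 1 ≤ N → X * M ≤ E * T → |a| ≤ 5 →
  ∫ b in (-5 : ℝ)..5, KB T X X₀ M M₀ N a b ≤ C * E ^ 2 / T *
    ∑ n ∈ Finset.Ioc N (4 * N), ∑ n' ∈ Finset.Ioc N (4 * N),
      ∑ m₁ ∈ MM M, ∑ m₂ ∈ MM M, ∑ m₃ ∈ MM M₀,
        kap (X * Real.exp a * ((m₁ : ℝ) - m₂ * ((n : ℝ) / n')) + X₀ * m₃)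

/-! ## 5. Regrouping -/

/-- **RGM** (medium). uses: nothing. Divisor argument.
Proof. Group the terms by `k = m₃ n'` (nonzero, `|k| ≤ 4 M₀ N`) and `s = m₁ n' - m₂ n`
(`|s| ≤ 8 M N`). For given `(s, k)`: `n'` is a divisor of `|k|`, `m₃ = k/n'`: at most `D` choices of
`(n', m₃)`; then `2 M` choices of `m₁`; then `m₂ n = m₁ n' - s =: v` is nonzero with `|v| ≤ 4 M N`, `n` is a
divisor of `|v|`: at most `D` choices of `(n, m₂)`. -/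
def RGM_stmt : Prop := ∀ (M M₀ N : ℕ) (D : ℝ) (F : ℤ → ℤ → ℝ), (∀ s k, 0 ≤ F s k) →
  (∀ k : ℕ, 1 ≤ k → k ≤ 4 * M * N + 4 * M₀ * N → d k ≤ D) →
  ∑ n ∈ Finset.Ioc N (4 * N), ∑ n' ∈ Finset.Ioc N (4 * N),
      ∑ m₁ ∈ MM M, ∑ m₂ ∈ MM M, ∑ m₃ ∈ MM M₀, F (m₁ * n' - m₂ * n) (m₃ * n')
    ≤ 2 * M * D ^ 2 * ∑ s ∈ Finset.Icc (-(8 * (M : ℤ) * N)) (8 * M * N),
        ∑ k ∈ MM (4 * M₀ * N), F s k

/-- **FAR** (medium/long). uses: nothing. The far terms. (`e^5 < 148.5`, so `e^a ∈ (1/148.5, 148.5)` on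
`[-5, 5]`: `Real.exp_one_lt_d9`.)
Proof. `s = 0`: `kap (Λ k) ≤ 1/(Λ k)²`, `∑_(k ≠ 0) 1/k² ≤ 4`. `s, k` of the same sign:
`|N e^a s + k| ≥ (N |s| + |k|)/150`. Opposite signs, `s > 0`, `k = -k'`: if `k' > 400 N s` or `400 k' < N s`
then `|N e^a s - k'| ≥ (N s + k')/1000`; otherwise it is a term of the last sum. The case `s < 0 < k` is
the same (`kap` is even). For `c > 0`: `∑_(s,k ≥ 1) (c Λ (N s + k))^(-2) ≤ (c Λ)^(-2) ∑_(s ≤ S) 1/(N s) ≤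
(c Λ)^(-2) (1 + log S)`. -/
def FAR_stmt : Prop := ∃ C : ℝ, 0 < C ∧ ∀ (N S K : ℕ) (Λ : ℝ) (h : ℝ → ℝ), 1 ≤ N → 0 < Λ →
  Continuous h → (∀ x, 0 ≤ h x) →
  ∑ s ∈ Finset.Icc (-(S : ℤ)) S, ∑ k ∈ MM K,
      ∫ a in (-5 : ℝ)..5, h a * kap (Λ * ((N : ℝ) * Real.exp a * s + k))
    ≤ C / Λ ^ 2 * (1 + Real.log S) * (∫ a in (-5 : ℝ)..5, h a) +
      2 * ∑ s ∈ Finset.Icc 1 S, ∑ k ∈ (Finset.Icc 1 K).filter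
        (fun k => N * s ≤ 400 * k ∧ k ≤ 400 * N * s),
        ∫ a in (-5 : ℝ)..5, h a * kap (Λ * ((N : ℝ) * Real.exp a * s - k))

/-- **NRR** (LONG). uses: nothing. The near terms, regrouped by reduced fractions.
Proof. Let `(s, k)` be a pair of the left sum, `g = gcd s k`, `q = s/g`, `p = k/g`, `i = Nat.log 2 q`
(`2^i ≤ q ≤ S`): `(p, q) ∈ RF N i`, and `(s, k) ↦ (g, (p, q))` is injective. Substitute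
`a = θ + (log p - log q - log N)`; `|log (p/(q N))| ≤ log 400 ≤ 6`, so `a ∈ [-5, 5]` gives `|θ| ≤ 11`, and
`N e^a s - k = g p (e^θ - 1)`, `|e^θ - 1| ≥ |θ|/12` for `|θ| ≤ 11`, `p ≥ N q/400 ≥ N 2^i/400`; so
`kap (Λ (N e^a s - k)) ≤ kap (c Λ g N 2^i θ)`, `c = 1/4800`. Hence the left side is at most
`∑ i ∑_(g ≤ S) ∫_(-11)^11 (∑_(r ∈ RF N i) h (…+θ)) kap (c Λ g N 2^i θ) dθ ≤
∑ i ∑_(g ≤ S) Y 2^i π/(c Λ g N 2^i)` and `∑_(g ≤ S) 1/g ≤ 1 + log S`; there are `Nat.log 2 S + 1 ≤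
2 (1 + log S)` values of `i`. -/
def NRR_stmt : Prop := ∃ C : ℝ, 0 < C ∧ ∀ (N S K : ℕ) (Λ : ℝ) (h : ℝ → ℝ) (Y : ℝ), 1 ≤ N → 1 ≤ S →
  0 < Λ → Continuous h → (∀ x, 0 ≤ h x) → 0 ≤ Y →
  (∀ i : ℕ, 2 ^ i ≤ S → ∀ θ : ℝ, |θ| ≤ 11 →
    ∑ r ∈ RF N i, h (Real.log r.1 - Real.log r.2 - Real.log N + θ) ≤ Y * 2 ^ i) →
  ∑ s ∈ Finset.Icc 1 S, ∑ k ∈ (Finset.Icc 1 K).filter
      (fun k => N * s ≤ 400 * k ∧ k ≤ 400 * N * s),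
      ∫ a in (-5 : ℝ)..5, h a * kap (Λ * ((N : ℝ) * Real.exp a * s - k))
    ≤ C * (1 + Real.log S) ^ 2 / (Λ * N) * Y

/-- **QZC** (medium). uses: nothing. Compare `Pool/Agent/helper31/ZD/QZ0.lean`.
Proof. `1 ≤ e^(c²) e^(-x²)` on `[-c, c]`, multiply out: `∫ e^(ixu) e^(-x²) dx = √π e^(-u²/4)`, so the left
side is at most `e^(c²) √π ∑ t t', ‖f t‖ ‖f t'‖ e^(-(t-t')²/4) ≤ e^(c²) √π ∑ t, ‖f t‖² ∑ t', e^(-(t-t')²/4)`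
(`2 ‖f t‖ ‖f t'‖ ≤ ‖f t‖² + ‖f t'‖²`), and the inner sum is bounded: `W` is 1-separated. -/
def QZC_stmt : Prop := ∀ c : ℝ, 0 < c → ∃ C : ℝ, 0 < C ∧ ∀ (W : Finset ℝ) (f : ℝ → ℂ),
  (∀ t ∈ W, ∀ t' ∈ W, t ≠ t' → 1 ≤ |t - t'|) →
    ∫ x in (-c)..c, ‖xf W f x‖ ^ 2 ≤ C * ∑ t ∈ W, ‖f t‖ ^ 2

/-- **OFC** (medium/long). uses: OFA_stmt, OFB_stmt, RGM_stmt, FAR_stmt, NRR_stmt, QZC_stmt.
Proof. `X = NP X₀`, `h a = ‖xf W f a‖²`, `S = 8 M N ≥ 1`. OFA and OFB: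
`LHS ≤ C E² X² X₀ ∫_(-5)^5 h(a) ∑ n n' m₁ m₂ m₃ kap (X e^a (m₁ - m₂ n/n') + X₀ m₃) da`, and
`X e^a (m₁ - m₂ n/n') + X₀ m₃ = (X₀/n') (NP e^a (m₁ n' - m₂ n) + m₃ n')`, `X₀/n' ≥ Λ = X₀/(4N)`, so
(`kap` decreasing) the sum is at most `∑ … F (m₁ n' - m₂ n) (m₃ n')`,
`F s k = kap (Λ (NP e^a s + k))`. RGM: `≤ 2 M D² ∑_s ∑_k F s k`. Integrate over `a`: FAR
(`1/Λ² = 16 N²/X₀² ≤ 16`, `∫ h ≤ C ∑ ‖f‖²` by QZC) and NRR (`1/(Λ NP) = 4 N/(X₀ NP)`). Total at most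
`C E² X² X₀ M D² (1 + log S)² (∑ ‖f‖² + N/(X₀ NP) Y)`. -/
def OFC_stmt : Prop := ∀ g : ℝ → ℝ, SR g → ∃ C : ℝ, 0 < C ∧ ∀ (T E X₀ D : ℝ) (NP N M M₀ : ℕ)
  (W : Finset ℝ) (f : ℝ → ℂ) (b : ℕ → ℂ) (Y : ℝ), 1 ≤ T → 1 ≤ E → 1 ≤ NP → 1 ≤ N → 1 ≤ M →
  (N : ℝ) ≤ X₀ → (NP : ℝ) * X₀ * M ≤ E * T → Sep 0 T W →
  (∀ n ∈ Finset.Ioc N (4 * N), ‖b n‖ ≤ 2) →
  (∀ k : ℕ, 1 ≤ k → k ≤ 4 * M * N + 4 * M₀ * N → d k ≤ D) → 0 ≤ Y →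
  (∀ i : ℕ, 2 ^ i ≤ 8 * M * N → ∀ θ : ℝ, |θ| ≤ 11 → ∑ r ∈ RF NP i,
    ‖xf W f (Real.log r.1 - Real.log r.2 - Real.log NP + θ)‖ ^ 2 ≤ Y * 2 ^ i) →
  ‖∑ t₁ ∈ W, ∑ t₂ ∈ W, f t₁ * (starRingEnd ℂ) (f t₂) * Bs X₀ M₀ (t₁ - t₂) *
      IW T g (NP * X₀) M (Finset.Ioc N (4 * N)) b t₁ t₂‖
    ≤ C * E ^ 2 * D ^ 2 * (1 + Real.log (8 * M * N)) ^ 2 * (((NP : ℝ) * X₀) ^ 2 * M) *
      (X₀ * ∑ t ∈ W, ‖f t‖ ^ 2 + N / NP * Y)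

/-- **JBD** (medium). uses: JSP_stmt, DIB_stmt, OFC_stmt; library: `divisor_bound`. The bound for `Jg`.
Proof. `E = T^δ`, `X = NP X₀ ≤ 2T`, `M = ⌊T^(1+δ)/X⌋₊ ≥ 1` (`T ≥ T₀`), `M₀ = ⌊T^(1+δ)/X₀⌋₊`,
`X M ≤ T^(1+δ) = E T`. `D = C T^(ε/8)` bounds `d k` for `k ≤ 4 M N + 4 M₀ N ≤ 16 T²`
(`N ≤ X₀ ≤ 2T`). DIB: `DI = C E² D X² M N ≤ C T^(ε/4 + 3δ) X T N`. JSP with `f`, OFC with
`f t * ex (-(t log X₀))` (same absolute values), `(1 + log S)² ≤ C T^(ε/4)`,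
`X² M ≤ X T^(1+δ)`; `64 X₀ + 2 ≤ 66 X₀`, `1 ≤ N`. -/
def JBD_stmt : Prop := ∀ g : ℝ → ℝ, SR g → ∀ ε δ : ℝ, 0 < ε → 0 < δ → δ ≤ 1 / 10 →
  ∃ C T₀ : ℝ, 0 < C ∧ ∀ T : ℝ, T₀ ≤ T → ∀ W : Finset ℝ, Sep δ T W → ∀ (NP N : ℕ) (X₀ : ℝ)
  (b : ℕ → ℂ) (f : ℝ → ℂ) (Y : ℝ), 1 ≤ NP → 1 ≤ N → T ^ (1 / 4 : ℝ) ≤ X₀ → (N : ℝ) ≤ X₀ →
  (NP : ℝ) * X₀ ≤ 2 * T → (∀ n ∈ Finset.Ioc N (4 * N), ‖b n‖ ≤ 2) → 0 ≤ Y →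
  (∀ i : ℕ, (2 : ℝ) ^ i ≤ 8 * (T ^ (1 + δ) / (NP * X₀)) * N → ∀ θ : ℝ, |θ| ≤ 11 →
    ∑ r ∈ RF NP i, ‖xf W (fun t => f t * ex (-(t * Real.log X₀)))
      (Real.log r.1 - Real.log r.2 - Real.log NP + θ)‖ ^ 2 ≤ Y * 2 ^ i) →
  Jg T g W f (NP * X₀) ⌊T ^ (1 + δ) / (NP * X₀)⌋₊ X₀ (Finset.Ioc N (4 * N)) b
    ≤ C * T ^ (ε + 3 * δ) * (NP * X₀ * T * N) * (X₀ * ∑ t ∈ W, ‖f t‖ ^ 2 + Y / NP)

end Pool.Agent.NF
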