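import Pool.Agent.helper4.NF.SpecA

/-!
# Project nf (MP_4467b5_nt), part B: lower bound, rational points, the large values theorem

Paper: `/team-store/MP_4467b5_NF_helper4.md`. Rules as in `SpecA.lean`; import
`Pool.Agent.helper4.NF.SpecB`. `P`, `E`, `Q` are the Dirichlet polynomials `DG (Ioc N (4N)) b` with
`N = NP, NE, NQ` and coefficients of absolute value at most `1`; `X = NP NE L`, `X₀ = NE L`,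
`R = W.card`.
-/

set_option autoImplicit false

open Complex MeasureTheory

namespace Pool.Agent.NF

open Pool.Agent.helper84.DM Pool.Agent.helper78.ED Pool.Agent.DH Pool.Agent.ZD

/-! ## 1. Lower bound -/

/-- The Dirichlet polynomial of length `N` with coefficients `b`. -/
noncomputable def PP (N : ℕ) (b : ℕ → ℂ) (t : ℝ) : ℂ := DG (Finset.Ioc N (4 * N)) b t

/-- **LB1** (medium). uses: EXA_stmt, BPH_stmt (zd).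
Proof. `X = NP NE L`, `D(t) = P(t) E(t)`, `v(t) = D(t) ex (-(t log l))`, `G = ∑ t, ‖D t‖²`.
`G = ∑ t, D(t) conj (P t) conj (E t) = ∑ n₁ n₂, conj (bP n₁ bE n₂) S(n₁,n₂)`,
`S(n₁,n₂) = ∑ t, D(t) ex (t (log n₁ + log n₂)) = ∑ t, v(t) ex (t log (n₁ n₂ l))`. Cauchy–Schwarz:
`G² ≤ (3 NP)(3 NE) ∑ n₁ n₂, ‖S‖²`. The number `k = n₁ n₂ l ∈ (X, 32 X]` has at most `d k ≤ D`
representations (`l` fixed, `n₁ ∣ k`), and `Phi (k/X) = 1`, so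
`∑ n₁ n₂, ‖S‖² ≤ D ∑_(k ≤ 64 X) Phi (k/X) ‖∑ t, v t ex (t log k)‖²
= D ∑ τ t ∈ W, conj (v τ) BX X (τ-t) v t`. The terms `t = τ` give `mu X * G` (`BX X 0 = mu X`). -/
def LB1_stmt : Prop := ∀ (W : Finset ℝ) (NP NE L : ℕ) (bP bE : ℕ → ℂ) (D : ℝ), 1 ≤ NP → 1 ≤ NE →
  1 ≤ L → (∀ n ∈ Finset.Ioc NP (4 * NP), ‖bP n‖ ≤ 1) → (∀ n ∈ Finset.Ioc NE (4 * NE), ‖bE n‖ ≤ 1) →
  (∀ k : ℕ, 1 ≤ k → k ≤ 32 * (NP * NE * L) → d k ≤ D) → ∀ l ∈ Finset.Ioc L (2 * L),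
  (∑ t ∈ W, ‖PP NP bP t * PP NE bE t‖ ^ 2) ^ 2 ≤ 9 * (NP * NE) * D *
    (mu (NP * NE * L) * ∑ t ∈ W, ‖PP NP bP t * PP NE bE t‖ ^ 2 +
      ‖∑ τ ∈ W, (starRingEnd ℂ) (PP NP bP τ * PP NE bE τ * ex (-(τ * Real.log l))) *
        ∑ t ∈ W, if t = τ then 0 else BX (NP * NE * L) (τ - t) *
          (PP NP bP t * PP NE bE t * ex (-(t * Real.log l)))‖)

/-- **LB2** (medium). uses: EXA_stmt, BPH_stmt (zd).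
Proof. For fixed `τ`, `l`: `E(t) ex (-(t log l)) = ∑ n, bE n ex (-(t log (n l)))`, so the inner sum is
`∑ n ∈ (NE, 4 NE], bE n FK W X P τ (n l)`; Cauchy–Schwarz: `≤ 3 NE ∑ n ‖FK (n l)‖²`. Sum over `l`:
`k = n l ∈ (NE L, 8 NE L]`, at most `d k ≤ D` representations, `Phi (k/(NE L)) = 1`, all terms `≥ 0`. -/
def LB2_stmt : Prop := ∀ (W : Finset ℝ) (X : ℝ) (P : ℝ → ℂ) (NE L : ℕ) (bE : ℕ → ℂ) (D : ℝ) (τ : ℝ),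
  1 ≤ NE → 1 ≤ L → (∀ n ∈ Finset.Ioc NE (4 * NE), ‖bE n‖ ≤ 1) →
  (∀ k : ℕ, 1 ≤ k → k ≤ 32 * (NE * L) → d k ≤ D) →
  ∑ l ∈ Finset.Ioc L (2 * L), ‖∑ t ∈ W, if t = τ then 0 else BX X (τ - t) *
      (P t * PP NE bE t * ex (-(t * Real.log l)))‖ ^ 2 ≤ 3 * NE * D * qk W X (NE * L) P τ

/-- **LBD** (short/medium). uses: LB1_stmt, LB2_stmt.
Proof. `G = ∑ ‖P E‖²`, `B = 9 NP NE D`, `μ = mu X`. If `G ≤ 2 B μ`: first alternative. Otherwise, with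
`G_l(τ)` the inner sum of LB1 and `Q_l` the sum over `τ`: `G² ≤ B μ G + B ‖Q_l‖`, so
`‖Q_l‖ ≥ G²/(2B)`; Cauchy–Schwarz: `‖Q_l‖² ≤ G ∑ τ ‖G_l(τ)‖²`. So `G³ ≤ 4 B² ∑ τ ‖G_l(τ)‖²` (`G > 0`).
Sum over the `L` values of `l` and LB2: `L G³ ≤ 4 B² · 3 NE D ∑ τ qk`, `4 · 81 · 3 = 972`. -/
def LBD_stmt : Prop := ∀ (W : Finset ℝ) (NP NE L : ℕ) (bP bE : ℕ → ℂ) (D : ℝ), 1 ≤ NP → 1 ≤ NE →
  1 ≤ L → (∀ n ∈ Finset.Ioc NP (4 * NP), ‖bP n‖ ≤ 1) → (∀ n ∈ Finset.Ioc NE (4 * NE), ‖bE n‖ ≤ 1) →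
  (∀ k : ℕ, 1 ≤ k → k ≤ 32 * (NP * NE * L) → d k ≤ D) → 0 ≤ mu (NP * NE * L) →
  ∑ t ∈ W, ‖PP NP bP t * PP NE bE t‖ ^ 2 ≤ 18 * (NP * NE) * D * mu (NP * NE * L) ∨
  L * (∑ t ∈ W, ‖PP NP bP t * PP NE bE t‖ ^ 2) ^ 3 ≤ 972 * ((NP : ℝ) * NE) ^ 2 * NE * D ^ 3 *
    ∑ τ ∈ W, qk W (NP * NE * L) (NE * L) (PP NP bP) τ

/-! ## 2. From the set `W` to the mean value -/

/-- **TRB** (medium). uses: PRX_stmt, BSX_stmt, EXA_stmt, EXB_stmt, CRD_stmt (zd).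
Proof. `τ ∈ W`. For `t ≠ τ` in `W`: `T^δ ≤ |τ-t| ≤ T`, PRX (`A = 4`):
`BX X (τ-t) = ex (-(τ log X)) ex (t log X) Bs X M (τ-t) + O(T^(-4))`. So
`FK W X P τ k = ex (-(τ log X)) (FG Phi W f X M τ k - f τ ex (-(τ log k)) Bs X M 0) + O(T^(-4) ∑ ‖P t‖)`,
`f t = P t ex (t log X)`, `BW Phi = Bs` (EXB), and `‖Bs X M 0‖ ≤ C T^(-4)` (BSX). Hence
`‖FK‖² ≤ 2 ‖FG‖² + 2 (C T^(-4) ∑ ‖P t‖)² ≤ 2 ‖FG‖² + C' T^(-8) R ∑ ‖P t‖²`; there are at most `64 T²` values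
of `k`, `0 ≤ Phi ≤ 1` and `R ≤ T + 1`. -/
def TRB_stmt : Prop := ∀ δ : ℝ, 0 < δ → δ ≤ 1 / 10 → ∃ T₀ : ℝ, ∀ T : ℝ, T₀ ≤ T →
  ∀ W : Finset ℝ, Sep δ T W → ∀ (X X₀ : ℝ) (P : ℝ → ℂ) (M : ℕ), T ^ (1 / 4 : ℝ) ≤ X →
  X ≤ T ^ (1 + δ) → 0 < X₀ → X₀ ≤ T ^ 2 → T ^ (1 + δ) / X ≤ (M : ℝ) + 1 → ∀ τ ∈ W,
  qk W X X₀ P τ ≤ 2 * ∑ k ∈ Finset.Icc 1 ⌊64 * X₀⌋₊, Phi ((k : ℝ) / X₀) *
    ‖FG Phi W (fun t => P t * ex (t * Real.log X)) X M τ k‖ ^ 2 + ∑ t ∈ W, ‖P t‖ ^ 2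

/-- **GAL** (short/medium). uses: BG1_stmt, BGD_stmt (zd).
Proof. BG1 with `ℓ = 1/2`: `‖H t‖² ≤ ∫ over [t-1/2, t+1/2] of (2 ‖H‖² + ‖H'‖²/2)`; BGD: the sum over `t` is
at most the integral over `[T-1/2, 2T+1/2]`, where `|x| ≤ 3T`, `1 ≤ e^9 e^(-(x/T)²)`, `e^9 < 8104`; then
enlarge to `ℝ` (integrable, nonnegative). -/
def GAL_stmt : Prop := ∀ (T : ℝ) (W : Finset ℝ) (H H' : ℝ → ℂ), 1 ≤ T → Sep 0 T W →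
  (∀ x, HasDerivAt H (H' x) x) → Continuous H' →
  Integrable (fun x : ℝ => ‖H x‖ ^ 2 * Real.exp (-(x / T) ^ 2)) →
  Integrable (fun x : ℝ => ‖H' x‖ ^ 2 * Real.exp (-(x / T) ^ 2)) →
  ∑ t ∈ W, ‖H t‖ ^ 2 ≤ 10 ^ 4 * ∫ x : ℝ, (2 * ‖H x‖ ^ 2 + ‖H' x‖ ^ 2) * Real.exp (-(x / T) ^ 2)

/-- **GLS** (medium). uses: GAL_stmt, DRV_stmt, EXA_stmt, EXB_stmt.
Proof. For each `k` apply GAL to `H τ = ex (τ log N) Q(τ) F(τ)`, `Q = PP N b`, `F = FG Phi W f X M · k`: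
`ex (τ log N) Q(τ) = ∑ n, b n ex (-(τ (log n - log N)))` has the derivative
`-i ex (τ log N) Q₁(τ)`, `Q₁ = PP N b₁`, `b₁ n = b n (log n - log N)`, and `F' = -i FG PhL W f X M · k` (DRV).
So `‖H‖² = ‖Q‖² ‖F‖²` and `‖H'‖² ≤ 2 ‖Q₁‖² ‖F‖² + 2 ‖Q‖² ‖FG PhL‖²`. Multiply by `Phi (k/X₀) ≥ 0` and sum. All
functions are continuous and bounded, so integrable against the Gaussian. -/
def GLS_stmt : Prop := ∀ (T : ℝ) (W : Finset ℝ) (f : ℝ → ℂ) (X : ℝ) (M : ℕ) (X₀ : ℝ) (N : ℕ)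
  (b : ℕ → ℂ), 1 ≤ T → Sep 0 T W → 1 ≤ N →
  ∑ τ ∈ W, ‖PP N b τ‖ ^ 2 * ∑ k ∈ Finset.Icc 1 ⌊64 * X₀⌋₊, Phi ((k : ℝ) / X₀) *
      ‖FG Phi W f X M τ k‖ ^ 2
    ≤ 10 ^ 5 * (Jg T Phi W f X M X₀ (Finset.Ioc N (4 * N)) b +
      Jg T Phi W f X M X₀ (Finset.Ioc N (4 * N))
        (fun n => b n * ((Real.log n - Real.log N : ℝ) : ℂ)) +
      Jg T PhL W f X M X₀ (Finset.Ioc N (4 * N)) b)

/-! ## 3. Rational points -/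

/-- **LSC** (medium). uses: BG1_stmt (zd), QZC_stmt. Dual large sieve at separated points.
Proof. `F x = xf W f x`, `F' x = xf W (i t f(t)) x`. BG1 with `ℓ = min (η/2) (1/T)`; the intervals
`(x-ℓ, x+ℓ)` are disjoint subsets of `[-21, 21]`, so the sum is at most
`∫_(-21)^21 (‖F‖²/ℓ + ℓ ‖F'‖²) ≤ C (1/ℓ + 4 T² ℓ) ∑ ‖f t‖²` (QZC, `|t| ≤ 2T`), and `T² ℓ ≤ T ≤ 1/ℓ ≤ T + 2/η`. -/
def LSC_stmt : Prop := ∃ C : ℝ, 0 < C ∧ ∀ (T η : ℝ) (W : Finset ℝ) (f : ℝ → ℂ) (J : Finset ℝ),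
  1 ≤ T → 0 < η → η ≤ 1 → Sep 0 T W → (∀ x ∈ J, |x| ≤ 20) →
  (∀ x ∈ J, ∀ x' ∈ J, x ≠ x' → η ≤ |x - x'|) →
  ∑ x ∈ J, ‖xf W f x‖ ^ 2 ≤ C * (T + 1 / η) * ∑ t ∈ W, ‖f t‖ ^ 2

/-- **YC** (medium). uses: LSC_stmt. The bound (c).
Proof. `J` = the image of `RF N i` under `r ↦ log r.1 - log r.2 - log N + θ`. For `r = (p,q) ≠ r' = (p',q')`
in `RF N i` (coprime pairs): `|p/q - p'/q'| ≥ 1/(q q') ≥ 1/4^(i+1)` and `p/q, p'/q' ≤ 400 N`, so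
`|log (p/q) - log (p'/q')| ≥ 1/(400 N 4^(i+1)) =: η`; in particular the map is injective.
`|log p - log q - log N| ≤ log 400 ≤ 6`, so `|x| ≤ 17`. LSC: `T + 1/η = T + 1600 N 4^i`. -/
def YC_stmt : Prop := ∃ C : ℝ, 0 < C ∧ ∀ (T : ℝ) (W : Finset ℝ) (f : ℝ → ℂ) (N i : ℕ) (θ : ℝ),
  1 ≤ T → Sep 0 T W → 1 ≤ N → |θ| ≤ 11 →
  ∑ r ∈ RF N i, ‖xf W f (Real.log r.1 - Real.log r.2 - Real.log N + θ)‖ ^ 2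
    ≤ C * (T + N * 4 ^ i) * ∑ t ∈ W, ‖f t‖ ^ 2

open Classical in
/-- **CNT** (medium/long). uses: nothing. Counting.
Proof. Let `((n, n'), (p', q'))` be an element of the set, `u = q' n' ≤ 8 N 2^i`,
`v = p' n ≤ 3200 N² 2^i`. The condition is `|log (p u) - log (q v)| ≤ η ≤ 1`, so
`|p u - q v| ≤ 2 η q v ≤ 12800 η N² 4^i =: H` (`q < 2^(i+1)`). Let `j = p u - q v`, at most `2H + 1`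
integers. For given `j`: `p u ≡ j mod q` and `p` is invertible mod `q`, so `u` is in one residue class mod
`q`, `1 ≤ u ≤ 8 N 2^i ≤ 8 N q`: at most `8 N + 1` values; `v` is determined. For given `(u, v)`: `q' ∣ u`,
`n' = u/q'`, `p' ∣ v`, `n = v/p'`: at most `D²` elements. -/
def CNT_stmt : Prop := ∃ C : ℝ, 0 < C ∧ ∀ (N i : ℕ) (η D : ℝ) (p q : ℕ), 1 ≤ N → 0 < η → η ≤ 1 →
  (p, q) ∈ RF N i → (∀ k : ℕ, 1 ≤ k → k ≤ 3200 * N ^ 2 * 2 ^ i → d k ≤ D) →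
  (((((Finset.Ioc N (4 * N)) ×ˢ (Finset.Ioc N (4 * N))) ×ˢ RF N i).filter (fun z =>
    |(Real.log p - Real.log q - Real.log z.1.1) -
      (Real.log z.2.1 - Real.log z.2.2 - Real.log z.1.2)| ≤ η)).card : ℝ)
    ≤ C * D ^ 2 * N * (1 + η * (N : ℝ) ^ 2 * 4 ^ i)

/-- **YB** (medium/long). uses: CNT_stmt, BLS_stmt (zd), EXA_stmt; library: `divisor_bound`. The bound
(b), by duality.
Proof. `F_r = ∑ t, P(t) ex (t (log r.1 - log r.2 + θ))`, `c_r = conj F_r`, `S = ∑ r ‖F_r‖²`. Then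
`S = ∑ t P(t) ex (t θ) ∑ r c_r ex (t (log r.1 - log r.2))`, so by Cauchy–Schwarz over `t`
`S² ≤ R ∑ t ‖P(t) ∑ r c_r ex (t (log r.1 - log r.2))‖²
= R ∑ t ‖∑ (n,r), b n c_r ex (t (log r.1 - log r.2 - log n))‖²`.
BLS with `J = ℕ × (ℕ × ℕ)`, `js = Ioc N (4N) ×ˢ RF N i`, `K` a point, `Λ = 8` (`|log (p/q) - log n| ≤ 8`
since `N/400 ≤ p/q ≤ 400 N`, `N < n ≤ 4N`): at most `10^5 · 64 T ∑ j j', ‖α_j‖ ‖α_j'‖ e^(-(T (m_j-m_j'))²/4)`.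
Split the Gaussian at `η = T^(δ-1)`: `e^(…) ≤ 1_{|m_j-m_j'| ≤ η} + e^(-T^(2δ)/4)`. With
`‖α_j‖ ‖α_j'‖ ≤ (‖c_r‖² + ‖c_r'‖²)/2` and the symmetry of the count the first part is at most
`∑ r ‖c_r‖² · (count of CNT) ≤ S C T^(ε/2) N (1 + T^(δ-1) N² 4^i)`; the second part is at most
`(3 N · card (RF N i)) · 3 N S e^(-T^(2δ)/4) ≤ S` for `T ≥ T₀` (`card ≤ 400 N 4^(i+1) ≤ T^10`). So
`S² ≤ R T C T^(ε/2+δ) N (1 + N² 4^i/T) S`; divide by `S`. -/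
def YB_stmt : Prop := ∀ ε δ : ℝ, 0 < ε → 0 < δ → δ ≤ 1 / 10 → ∃ C T₀ : ℝ, 0 < C ∧
  ∀ T : ℝ, T₀ ≤ T → ∀ W : Finset ℝ, Sep 0 T W → ∀ (N i : ℕ) (b : ℕ → ℂ) (θ : ℝ), 1 ≤ N →
  (N : ℝ) ≤ T → (2 : ℝ) ^ i ≤ T ^ 2 → (∀ n ∈ Finset.Ioc N (4 * N), ‖b n‖ ≤ 1) →
  ∑ r ∈ RF N i, ‖∑ t ∈ W, PP N b t * ex (t * (Real.log r.1 - Real.log r.2 + θ))‖ ^ 2
    ≤ C * T ^ (ε + δ) * (W.card : ℝ) * N * (T + (N : ℝ) ^ 2 * 4 ^ i)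

/-! ## 4. The large values theorem -/

/-- **YM** (short/medium, real numbers). uses: nothing.
Proof. `q > 0`. If the first bound is used the quotient `S/q` is at most `a/q + b q` with `a = K U² T`,
`b = K U² NP`, if the second is used `c/q + e q`, `c = K NP T`, `e = K NP³`. If `a/q ≤ e q` then
`a/q ≤ (a e)^(1/2)` and `S/q ≤ (a e)^(1/2) + b q`. Otherwise `e q ≤ a/q`, `e q ≤ (a e)^(1/2)` and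
`S/q ≤ c/q + (a e)^(1/2) ≤ c + (a e)^(1/2)` (`q ≥ 1`). `b q ≤ b Q`. -/
def YM_stmt : Prop := ∀ S K U T NP q Q : ℝ, 0 ≤ K → 0 ≤ U → 0 ≤ T → 0 ≤ NP → 1 ≤ q → q ≤ Q →
  S ≤ K * (U ^ 2 * (T + NP * q ^ 2)) → S ≤ K * (NP * (T + NP ^ 2 * q ^ 2)) →
  S ≤ K * (NP * T + (NP ^ 3 * U ^ 2 * T) ^ (1 / 2 : ℝ) + U ^ 2 * NP * Q) * q

/-- **MQI** (medium/long). uses: TRB_stmt, GLS_stmt, JBD_stmt, YC_stmt, YB_stmt, YM_stmt, EXA_stmt,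
EXB_stmt, CRD_stmt (zd).
Proof. `X = NP NE L ≤ 2T`, `X₀ = NE L`, `M = ⌊T^(1+δ)/X⌋₊`, `P = PP NP bP`, `Q = PP NQ bQ`,
`f t = P t ex (t log X)`, `VQ ≤ ‖Q t‖` on `W`. TRB and GLS (`‖Q τ‖² ≥ VQ²`):
`VQ² ∑ qk ≤ 2 · 10^5 (Jg₁ + Jg₂ + Jg₃) + VQ² R ∑ ‖P‖²`. Each `Jg` is bounded by JBD (`g = Phi` or `PhL`,
coefficients `≤ 2` as `log 4 ≤ 2`) with
`f t ex (-(t log X₀)) = P t ex (t log NP)`, so that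
`xf … (log r.1 - log r.2 - log NP + θ) = ∑ t P t ex (t (log r.1 - log r.2 + θ))`. For
`q = 2^i ≤ Q := 8 (T^(1+δ)/X) NQ` (`≤ T²`, as `NQ ≤ X₀ ≤ X`) YC and YB bound the sum over `RF NP i` by
`K UP² (T + NP q²)` and `K NP (T + NP² q²)`, `K = C T^(ε/2+δ) R` (`∑ ‖P t‖² ≤ R UP²`), and YM gives
`Y = K (NP T + (NP³ UP² T)^(1/2) + UP² NP Q)`, `UP² NP Q = 8 UP² T^(1+δ) NQ/X₀`. JBD:
`Jg ≤ C T^(ε/2+3δ) (X T NQ)(X₀ R UP² + Y/NP)`, `X T NQ/NP = X₀ T NQ`. The last term: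
`VQ² R ∑ ‖P‖² ≤ (3 NQ)² R · R UP²`, `R ≤ 2T`, `NQ ≤ X₀`, `1 ≤ X` (if `W` is empty everything is `0`). -/
def MQI_stmt : Prop := ∀ ε δ : ℝ, 0 < ε → 0 < δ → δ ≤ 1 / 10 → ∃ C T₀ : ℝ, 0 < C ∧
  ∀ T : ℝ, T₀ ≤ T → ∀ W : Finset ℝ, Sep δ T W → ∀ (NP NE NQ L : ℕ) (bP bQ : ℕ → ℂ) (UP VQ : ℝ),
  1 ≤ NP → 1 ≤ NE → 1 ≤ NQ → 1 ≤ L → T ^ (1 / 4 : ℝ) ≤ (NE : ℝ) * L → NQ ≤ NE * L →
  (NP : ℝ) * NE * L ≤ 2 * T → (∀ n ∈ Finset.Ioc NP (4 * NP), ‖bP n‖ ≤ 1) →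
  (∀ n ∈ Finset.Ioc NQ (4 * NQ), ‖bQ n‖ ≤ 1) → 0 ≤ UP → 0 ≤ VQ →
  (∀ t ∈ W, ‖PP NP bP t‖ ≤ UP ∧ VQ ≤ ‖PP NQ bQ t‖) →
  VQ ^ 2 * ∑ τ ∈ W, qk W (NP * NE * L) (NE * L) (PP NP bP) τ ≤ C * T ^ (ε + 6 * δ) *
    (W.card : ℝ) * (NE * L * T * NQ) * (UP ^ 2 * (NP * NE * L) + NP * T +
      ((NP : ℝ) ^ 3 * UP ^ 2 * T) ^ (1 / 2 : ℝ) + UP ^ 2 * NQ * T / (NE * L))

/-- **GLV** (medium). uses: LBD_stmt, MQI_stmt, EXA_stmt; library: `divisor_bound`. The general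
large values inequality.
Proof. `W` empty is trivial. `G = ∑ ‖P E‖² ≥ R V²`, `X = NP NE L`, `mu X ≤ 64 X`, `D = C T^(ε/8)`
(`k ≤ 64 T`). LBD. First alternative: `R V² ≤ 18 NP NE D 64 X`. Second: `L (R V²)³ ≤ L G³`; multiply by
`VQ²`, MQI with `ε/2`, divide by `R`. -/
def GLV_stmt : Prop := ∀ ε δ : ℝ, 0 < ε → 0 < δ → δ ≤ 1 / 10 → ∃ C T₀ : ℝ, 0 < C ∧
  ∀ T : ℝ, T₀ ≤ T → ∀ W : Finset ℝ, Sep δ T W → ∀ (NP NE NQ L : ℕ) (bP bE bQ : ℕ → ℂ)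
  (UP V VQ : ℝ), 1 ≤ NP → 1 ≤ NE → 1 ≤ NQ → 1 ≤ L → T ^ (1 / 4 : ℝ) ≤ (NE : ℝ) * L →
  NQ ≤ NE * L → (NP : ℝ) * NE * L ≤ 2 * T → (∀ n ∈ Finset.Ioc NP (4 * NP), ‖bP n‖ ≤ 1) →
  (∀ n ∈ Finset.Ioc NE (4 * NE), ‖bE n‖ ≤ 1) → (∀ n ∈ Finset.Ioc NQ (4 * NQ), ‖bQ n‖ ≤ 1) →
  0 ≤ UP → 0 ≤ V → 0 ≤ VQ →
  (∀ t ∈ W, ‖PP NP bP t‖ ≤ UP ∧ V ≤ ‖PP NP bP t * PP NE bE t‖ ∧ VQ ≤ ‖PP NQ bQ t‖) →
  (W.card : ℝ) * V ^ 2 ≤ C * T ^ ε * (((NP : ℝ) * NE) ^ 2 * L) ∨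
  VQ ^ 2 * (L * V ^ 6 * (W.card : ℝ) ^ 2) ≤ C * T ^ (ε + 6 * δ) *
    (((NP : ℝ) * NE) ^ 2 * NE * (NE * L * T * NQ)) * (UP ^ 2 * (NP * NE * L) + NP * T +
      ((NP : ℝ) ^ 3 * UP ^ 2 * T) ^ (1 / 2 : ℝ) + UP ^ 2 * NQ * T / (NE * L))

/-- **LVR** (medium, real numbers). uses: nothing.
Proof. `V > 0`. First alternative: `R V⁴ ≤ K N⁴ L ≤ 2 K N³ T^(1/2)`. Second: the bracket is at most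
`8 N V² T^(1/2) + N T + 2 V² N T^(1/2) + 4 V² N T^(1/2)`: `N² L ≤ 2 N T^(1/2)`;
`(N³ (2V)² T)^(1/2) = 2 N^(3/2) V T^(1/2) ≤ 2 N V² T^(1/2)` because `N^(1/2) ≤ V`;
`N T/(N L) ≤ N T^(1/2)` because `L ≥ T^(1/2)/N`. Hence (divide by `L`)
`V^14 R² ≤ K N⁷ T (14 N V² T^(1/2) + N T)`, `R² ≤ 14 K (N⁸ T^(3/2)/V^12 + N⁸ T²/V^14)`, and
`R ≤ (14 K)^(1/2) (N⁴ T^(3/4)/V⁶ + N⁴ T/V⁷) ≤ 14 K (…)` (`K ≥ 1`). -/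
def LVR_stmt : Prop := ∀ R V K N L T : ℝ, 0 ≤ R → 1 ≤ K → 1 ≤ N → 1 ≤ T → N ^ (1 / 2 : ℝ) ≤ V →
  T ^ (1 / 2 : ℝ) / N ≤ L → L ≤ 2 * (T ^ (1 / 2 : ℝ) / N) →
  (R * (V ^ 2) ^ 2 ≤ K * ((N * N) ^ 2 * L) ∨
    V ^ 2 * (L * (V ^ 2) ^ 6 * R ^ 2) ≤ K * ((N * N) ^ 2 * N * (N * L * T * N)) *
      ((2 * V) ^ 2 * (N * N * L) + N * T + (N ^ 3 * (2 * V) ^ 2 * T) ^ (1 / 2 : ℝ) +
        (2 * V) ^ 2 * N * T / (N * L))) →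
  R ≤ 14 * K * (T ^ (3 / 4 : ℝ) * N ^ 4 / V ^ 6 + T * N ^ 4 / V ^ 7 +
    T ^ (1 / 2 : ℝ) * N ^ 3 / V ^ 4)

/-- **LVD** (medium/long). uses: GLV_stmt, LVR_stmt. The interface statement `LVD_stmt` of `Defs`.
Proof. `δ₀ = min (ε/24) (1/10)`. `DP N a = PP N b` with `b = a` on `(N, 2N]` and `0` elsewhere. Dyadic levels:
`W_j = {t ∈ W : 2^j V ≤ ‖DP N a t‖ < 2^(j+1) V}`, `W` is the union of the `W_j` with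
`0 ≤ j ≤ J`, `2^J ≤ T` (`V ≥ 1`, `‖DP N a t‖ ≤ N ≤ T`); `J + 1 ≤ C T^(ε/4)`. For each `j` apply GLV with
`P = E = Q = PP N b`, `NP = NE = NQ = N`, `UP = 2 V_j`, `V = V_j²`, `VQ = V_j` (`V_j = 2^j V`),
`L = ⌈T^(1/2)/N⌉₊ ≥ 1` (`T^(1/2)/N ≤ L ≤ 2 T^(1/2)/N` as `N ≤ T^(1/2)`; `N L ≥ T^(1/2) ≥ T^(1/4)`,
`N N L ≤ 2 N T^(1/2) ≤ 2 T`), `ε/4`; LVR with `K = max 1 (C T^(ε/2))`; the bound decreases in `V_j`. -/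
def LVD_doc : Prop := LVD_stmt

end Pool.Agent.NF
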